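import Pool.Agent.TH443.MJ.Slice
import Pool.Agent.TH713.H443a
import Pool.Agent.TH713.H443b

/-!
Lower bound for the cost of a countable cover of the limsup set.
-/

set_option autoImplicit false

open MeasureTheory Filter Set Metric
open scoped ENNReal

namespace Pool.Agent.TH443.MJ

/-- the limsup set in the unit cube -/
def WW (m d : ℕ) (ψ : ℕ → ℝ) (θ : Fin (d + 1) → ℝ) : Set (Fin (d + 1) → Fin (m + 1) → ℝ) :=
  {X | (∀ i j, X i j ∈ Icc (0 : ℝ) 1) ∧ {q : Fin (m + 1) → ℤ | q ≠ 0 ∧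
    ∏ i, |(∑ j, (q j : ℝ) * X i j - θ i) - round (∑ j, (q j : ℝ) * X i j - θ i)| <
      ψ (Finset.univ.sup (fun j => (q j).natAbs))}.Infinite}

/-- replace the coordinate `(0, 0)` -/
noncomputable def repl {m d : ℕ} (X : Fin (d + 1) → Fin (m + 1) → ℝ) (t : ℝ) :
    Fin (d + 1) → Fin (m + 1) → ℝ := Fin.cons (Fin.cons t (Fin.tail (X 0))) (Fin.tail X)

theorem sup_eq {m : ℕ} (i : Idx m) :
    Finset.univ.sup (fun j => (i.1.1 j).natAbs) = (i.1.1 0).toNat := by
  apply le_antisymm
  · apply Finset.sup_le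
    intro j _
    have h := i.2.2.1 j
    have h0 := i.2.1
    rw [Int.abs_eq_natAbs] at h
    omega
  · have h := Finset.le_sup (f := fun j => (i.1.1 j).natAbs) (Finset.mem_univ (0 : Fin (m + 1)))
    have h0 := i.2.1
    omega

theorem repl_mem {m d : ℕ} {ψ : ℕ → ℝ} {θ : Fin (d + 1) → ℝ}
    (hψpos : ∀ n, 1 ≤ n → 0 < ψ n)
    (X : Fin (d + 1) → Fin (m + 1) → ℝ) (hX : ∀ i j, X i j ∈ Icc (0 : ℝ) 1) (t : ℝ)
    (ht : t ∈ Icc (0 : ℝ) 1)
    (hinf : {i : Idx m | |t - cen (θ 0) (X 0) i| ≤ rad ψ i}.Infinite) :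
    repl X t ∈ WW m d ψ θ := by
  refine ⟨?_, ?_⟩
  · intro i j
    refine Fin.cases ?_ (fun i => ?_) i
    · refine Fin.cases ?_ (fun j => ?_) j
      · exact ht
      · exact hX 0 j.succ
    · exact hX i.succ j
  · intro hfin
    apply hinf
    -- every `q` has finitely many preimages
    have hsub : {i : Idx m | |t - cen (θ 0) (X 0) i| ≤ rad ψ i} ⊆
        ⋃ q ∈ {q : Fin (m + 1) → ℤ | q ≠ 0 ∧
          ∏ i, |(∑ j, (q j : ℝ) * repl X t i j - θ i) -
            round (∑ j, (q j : ℝ) * repl X t i j - θ i)| <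
            ψ (Finset.univ.sup (fun j => (q j).natAbs))}, {i : Idx m | i.1.1 = q} := by
      intro i hi
      simp only [mem_iUnion, exists_prop]
      refine ⟨i.1.1, ⟨?_, ?_⟩, rfl⟩
      · intro h
        have := i.2.1
        rw [h] at this
        simp at this
      · rw [sup_eq]
        have hp := i.pos
        have hψi := hψpos _ i.one_le
        rw [Fin.prod_univ_succ]
        have h1 : |(∑ j, (i.1.1 j : ℝ) * repl X t 0 j - θ 0) -
            round (∑ j, (i.1.1 j : ℝ) * repl X t 0 j - θ 0)| ≤ ψ (i.1.1 0).toNat / 2 := by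
          refine (round_le _ i.1.2).trans ?_
          have h2 := form_eq (θ 0) (X 0) i t
          have h3 : ∑ j, (i.1.1 j : ℝ) * repl X t 0 j - θ 0 - i.1.2 =
              (i.1.1 0 : ℝ) * (t - cen (θ 0) (X 0) i) := by
            rw [← h2]
            show ∑ j, (i.1.1 j : ℝ) * (Fin.cons t (Fin.tail (X 0)) : Fin (m + 1) → ℝ) j - θ 0 -
              i.1.2 = _
            ring
          rw [h3, abs_mul, abs_of_pos hp]
          have h4 : |t - cen (θ 0) (X 0) i| ≤ rad ψ i := hi
          calc (i.1.1 0 : ℝ) * |t - cen (θ 0) (X 0) i| ≤ (i.1.1 0 : ℝ) * rad ψ i := by gcongr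
            _ = ψ (i.1.1 0).toNat / 2 := by
                unfold rad; field_simp
        have h2 : ∏ k : Fin d, |(∑ j, (i.1.1 j : ℝ) * repl X t k.succ j - θ k.succ) -
            round (∑ j, (i.1.1 j : ℝ) * repl X t k.succ j - θ k.succ)| ≤ 1 := by
          apply Finset.prod_le_one
          · intro k _; exact abs_nonneg _
          · intro k _
            exact (abs_sub_round _).trans (by norm_num)
        calc _ ≤ ψ (i.1.1 0).toNat / 2 * 1 := by
              apply mul_le_mul h1 h2 (Finset.prod_nonneg fun _ _ => abs_nonneg _) (by positivity)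
          _ < ψ (i.1.1 0).toNat := by linarith
    refine (hfin.biUnion ?_).subset hsub
    intro q _
    exact (idx_finite (m := m) (q 0)).subset (by
      intro i hi
      have hi' : i.1.1 = q := hi
      show i.1.1 0 ≤ q 0
      rw [hi'])

/-- the part of the cost of a cover which is seen on the line through `X` -/
theorem line_bound {m d : ℕ} {g : ℝ → ℝ} {C : ℝ} (hg : Gauge g C) (hC : 1 ≤ C) {ψ : ℕ → ℝ}
    {θ : Fin (d + 1) → ℝ} (hψpos : ∀ n, 1 ≤ n → 0 < ψ n)
    (X : Fin (d + 1) → Fin (m + 1) → ℝ) (hX : ∀ i j, X i j ∈ Icc (0 : ℝ) 1)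
    (hF : Fam g (cen (θ 0) (X 0)) (rad ψ : Idx m → ℝ))
    (ρ : ℝ) (hρ : 0 < ρ) (hρ1 : ρ ≤ 1 / 16) (b : ℕ → Fin (d + 1) → Fin (m + 1) → ℝ) (δ : ℕ → ℝ)
    (hδ : ∀ i, 0 < δ i) (hδρ : ∀ i, δ i ≤ ρ) (hcov : ∀ X ∈ WW m d ψ θ, ∃ i, dist X (b i) ≤ δ i) :
    ENNReal.ofReal (g (2 * ρ) / (216 * C) / (16 * ρ)) ≤ ∑' k,
      {X : Fin (d + 1) → Fin (m + 1) → ℝ | ∀ i j, (i, j) ≠ (0, 0) → |X i j - b k i j| ≤ δ k}.indicator
        (fun _ => ENNReal.ofReal (g (2 * δ k))) X := by
  classical
  have hC0 : 0 < C := by linarith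
  have h1 := content_lower (κ := {k : ℕ // ∀ i j, (i, j) ≠ (0, 0) → |X i j - b k i j| ≤ δ k})
    (u := fun k => b k.1 0 0) (ℓ := fun k => 2 * δ k.1) (η := 1 / (216 * C)) hg hC hF
    (fun k => by have := hδ k.1; positivity) (by positivity) (by field_simp; exact le_rfl) (2 * ρ) (by positivity)
    (by linarith) (fun k => by have := hδρ k.1; linarith) ?_
  · calc ENNReal.ofReal (g (2 * ρ) / (216 * C) / (16 * ρ))
        = ENNReal.ofReal (1 / (216 * C) * g (2 * ρ) / (8 * (2 * ρ))) := by congr 1; ring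
      _ ≤ _ := h1
      _ = _ := by
          refine (tsum_subtype {k : ℕ | ∀ i j, (i, j) ≠ (0, 0) → |X i j - b k i j| ≤ δ k}
            (fun k => ENNReal.ofReal (g (2 * δ k)))).trans ?_
          refine tsum_congr fun k => ?_
          by_cases hk : ∀ i j, (i, j) ≠ (0, 0) → |X i j - b k i j| ≤ δ k
          · rw [indicator_of_mem, indicator_of_mem]
            · exact hk
            · exact hk
          · rw [indicator_of_notMem, indicator_of_notMem]
            · exact hk
            · exact hk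
  · intro t ht hinf
    obtain ⟨k, hk⟩ := hcov _ (repl_mem hψpos X hX t ht hinf)
    rw [dist_pi_le_iff (hδ k).le] at hk
    have hk' : ∀ i j, |repl X t i j - b k i j| ≤ δ k := by
      intro i j
      have h3 := hk i
      rw [dist_pi_le_iff (hδ k).le] at h3
      have h4 := h3 j
      rwa [Real.dist_eq] at h4
    refine ⟨⟨k, ?_⟩, ?_⟩
    · intro i j hij
      have h3 := hk' i j
      have h4 : repl X t i j = X i j := by
        revert hij
        refine Fin.cases ?_ (fun i => ?_) i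
        · refine Fin.cases ?_ (fun j => ?_) j
          · intro h; exact absurd rfl h
          · intro _; rfl
        · intro _; rfl
      rwa [h4] at h3
    · have h3 := hk' 0 0
      have h4 : repl X t 0 0 = t := rfl
      rw [h4] at h3
      have := hδ k
      show |t - b k 0 0| < 2 * δ k
      linarith

theorem vol_slab (m d : ℕ) (b : Fin (d + 1) → Fin (m + 1) → ℝ) (δ : ℝ) (hδ : 0 < δ) :
    volume ({X : Fin (d + 1) → Fin (m + 1) → ℝ | ∀ i j, (i, j) ≠ (0, 0) → |X i j - b i j| ≤ δ} ∩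
      {X | ∀ i j, X i j ∈ Icc (0 : ℝ) 1}) ≤ ENNReal.ofReal ((2 * δ) ^ ((d + 1) * (m + 1) - 1)) := by
  classical
  have hsub : {X : Fin (d + 1) → Fin (m + 1) → ℝ | ∀ i j, (i, j) ≠ (0, 0) → |X i j - b i j| ≤ δ} ∩
      {X | ∀ i j, X i j ∈ Icc (0 : ℝ) 1} ⊆ Set.pi Set.univ (fun i => Set.pi Set.univ (fun j =>
        if (i, j) = ((0 : Fin (d + 1)), (0 : Fin (m + 1))) then Icc (0 : ℝ) 1
          else Icc (b i j - δ) (b i j + δ))) := by
    rintro X ⟨h1, h2⟩ i _ j _
    show X i j ∈ if (i, j) = ((0 : Fin (d + 1)), (0 : Fin (m + 1))) then Icc (0 : ℝ) 1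
          else Icc (b i j - δ) (b i j + δ)
    by_cases h : (i, j) = ((0 : Fin (d + 1)), (0 : Fin (m + 1)))
    · rw [if_pos h]; exact h2 i j
    · rw [if_neg h]
      have := abs_le.1 (h1 i j h)
      constructor <;> [linarith [this.1]; linarith [this.2]]
  refine (measure_mono hsub).trans ?_
  rw [volume_pi_pi]
  have h1 : ∀ i : Fin (d + 1), volume (Set.pi Set.univ (fun j : Fin (m + 1) =>
        if (i, j) = ((0 : Fin (d + 1)), (0 : Fin (m + 1))) then Icc (0 : ℝ) 1
          else Icc (b i j - δ) (b i j + δ))) = ∏ j : Fin (m + 1),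
          (if (i, j) = ((0 : Fin (d + 1)), (0 : Fin (m + 1))) then 1 else ENNReal.ofReal (2 * δ)) := by
    intro i
    rw [volume_pi_pi]
    refine Finset.prod_congr rfl fun j _ => ?_
    split_ifs
    · rw [Real.volume_Icc]; simp
    · rw [Real.volume_Icc]; congr 1; ring
  simp_rw [h1]
  rw [← Finset.prod_product', Finset.univ_product_univ, Finset.prod_ite, Finset.prod_const_one,
    one_mul, Finset.prod_const, ← ENNReal.ofReal_pow (by positivity)]
  apply le_of_eq
  congr 2
  rw [Finset.filter_not, Finset.card_sdiff_of_subset (Finset.filter_subset _ _)]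
  simp [Finset.filter_eq']

end Pool.Agent.TH443.MJ
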