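import Pool.Agent.TH443.MJ.Step

/-!
One dimensional mass transference: lower bound for the content of the limsup set.
-/

set_option autoImplicit false

open MeasureTheory Filter Set Metric
open scoped ENNReal

namespace Pool.Agent.TH443.MJ

section

variable {g : ℝ → ℝ} {C : ℝ} {κ : Type} {u ℓ : κ → ℝ} {η z s : ℝ}

/-- the states of the construction -/
def GoodState {ι : Type} (g : ℝ → ℝ) (u ℓ : κ → ℝ) (η : ℝ) (p : Finset ι × ℝ × ℝ) : Prop :=
  0 < p.2.2 ∧ 0 ≤ p.2.1 - p.2.2 ∧ p.2.1 + p.2.2 ≤ 1 ∧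
    cost g u ℓ p.2.1 p.2.2 ≤ ENNReal.ofReal (η * g p.2.2)

theorem exists_point (hg : Gauge g C) (hC : 1 ≤ C) {ι : Type} [Countable ι] {c r : ι → ℝ}
    (hF : Fam g c r) (hℓ : ∀ k, 0 < ℓ k) (hη : 0 < η) (hη2 : η * (216 * C) ≤ 1)
    (hs : 0 < s) (h0 : 0 ≤ z - s) (h1 : z + s ≤ 1)
    (hcost : cost g u ℓ z s ≤ ENNReal.ofReal (η * g s)) :
    ∃ x : ℝ, |x - z| ≤ s ∧ {i | |x - c i| ≤ r i}.Infinite ∧ ∀ k, ¬ |x - u k| < ℓ k := by
  classical
  have hη1 : η < 1 := by nlinarith
  have hex : ∀ p : {p : Finset ι × ℝ × ℝ // GoodState g u ℓ η p}, ∃ i, i ∉ p.1.1 ∧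
      |c i - p.1.2.1| + r i ≤ p.1.2.2 ∧ cost g u ℓ (c i) (r i) ≤ ENNReal.ofReal (η * g (r i)) := by
    rintro ⟨⟨F, z', s'⟩, hs', h0', h1', hc'⟩
    obtain ⟨i, hi, hi2, hi3⟩ := step_lemma hg hC hF hℓ hη hη2 hs' h0' h1' hc' (F : Set ι)
      (Finset.finite_toSet F)
    exact ⟨i, hi, hi2, hi3⟩
  choose idx hidx1 hidx2 hidx3 using hex
  have hgood : ∀ p : {p : Finset ι × ℝ × ℝ // GoodState g u ℓ η p},
      GoodState g u ℓ η (insert (idx p) p.1.1, c (idx p), r (idx p)) := by
    intro p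
    have h2 := hidx2 p
    obtain ⟨a1, a2, a3, -⟩ := p.2
    have h3 := abs_le.1 (le_refl |c (idx p) - p.1.2.1|)
    refine ⟨hF.pos _, ?_, ?_, hidx3 p⟩
    · show 0 ≤ c (idx p) - r (idx p)
      linarith [h3.1]
    · show c (idx p) + r (idx p) ≤ 1
      linarith [h3.2]
  let next : {p : Finset ι × ℝ × ℝ // GoodState g u ℓ η p} →
      {p : Finset ι × ℝ × ℝ // GoodState g u ℓ η p} := fun p =>
    ⟨(insert (idx p) p.1.1, c (idx p), r (idx p)), hgood p⟩
  let p : ℕ → {p : Finset ι × ℝ × ℝ // GoodState g u ℓ η p} := fun n =>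
    Nat.rec ⟨(∅, z, s), hs, h0, h1, hcost⟩ (fun _ q => next q) n
  have hp0 : (p 0).1 = (∅, z, s) := rfl
  have hp : ∀ n, p (n + 1) = next (p n) := fun n => rfl
  let a : ℕ → ι := fun n => idx (p n)
  have hF1 : ∀ n, (p (n + 1)).1.1 = insert (a n) (p n).1.1 := fun n => by rw [hp]
  have hz1 : ∀ n, (p (n + 1)).1.2.1 = c (a n) := fun n => by rw [hp]
  have hs1 : ∀ n, (p (n + 1)).1.2.2 = r (a n) := fun n => by rw [hp]
  have hmem : ∀ n k, a n ∈ (p (n + 1 + k)).1.1 := by
    intro n k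
    induction k with
    | zero => rw [add_zero, hF1]; exact Finset.mem_insert_self _ _
    | succ k ih => rw [← add_assoc, hF1]; exact Finset.mem_insert_of_mem ih
  have hinj : Function.Injective a := by
    have key : ∀ m n, m < n → a m ≠ a n := by
      intro m n hmn h
      obtain ⟨k, rfl⟩ := Nat.exists_eq_add_of_lt hmn
      have h3 := hmem m k
      rw [h, show m + 1 + k = m + k + 1 by ring] at h3
      exact hidx1 (p (m + k + 1)) h3
    intro m n h
    rcases lt_trichotomy m n with h1 | h1 | h1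
    · exact (key m n h1 h).elim
    · exact h1
    · exact (key n m h1 h.symm).elim
  -- nested closed intervals
  let I : ℕ → Set ℝ := fun n => closedBall (p n).1.2.1 (p n).1.2.2
  have hI : ∀ n, I (n + 1) ⊆ I n := by
    intro n
    have h2 := hidx2 (p n)
    show closedBall (p (n + 1)).1.2.1 (p (n + 1)).1.2.2 ⊆ closedBall (p n).1.2.1 (p n).1.2.2
    rw [hz1, hs1]
    apply closedBall_subset_closedBall'
    rw [Real.dist_eq]
    change |c (a n) - (p n).1.2.1| + r (a n) ≤ (p n).1.2.2 at h2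
    linarith
  obtain ⟨x, hx⟩ := IsCompact.nonempty_iInter_of_sequence_nonempty_isCompact_isClosed I hI
    (fun n => nonempty_closedBall.2 (p n).2.1.le) (isCompact_closedBall _ _)
    (fun n => isClosed_closedBall)
  rw [mem_iInter] at hx
  have hxa : ∀ n, |x - c (a n)| ≤ r (a n) := by
    intro n
    have := hx (n + 1)
    change x ∈ closedBall (p (n + 1)).1.2.1 (p (n + 1)).1.2.2 at this
    rw [hz1, hs1, mem_closedBall, Real.dist_eq] at this
    exact this
  refine ⟨x, ?_, ?_, ?_⟩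
  · have := hx 0
    change x ∈ closedBall z s at this
    rwa [mem_closedBall, Real.dist_eq] at this
  · exact Set.infinite_of_injective_forall_mem hinj hxa
  · intro k hk
    have hlt : ∀ n, ℓ k ≤ r (a n) := by
      intro n
      have hhit : |u k - c (a n)| < ℓ k + r (a n) := by
        have h2 : |u k - c (a n)| ≤ |u k - x| + |x - c (a n)| := abs_sub_le _ _ _
        rw [abs_sub_comm] at hk
        linarith [hxa n]
      have h3 : ENNReal.ofReal (g (ℓ k)) ≤ cost g u ℓ (c (a n)) (r (a n)) := by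
        unfold cost
        have := ENNReal.le_tsum (f := fun k => if |u k - c (a n)| < ℓ k + r (a n) then
          ENNReal.ofReal (g (ℓ k)) else 0) k
        simpa [hhit] using this
      have hgr := hg.pos _ (hF.pos (a n))
      have h4 := (ENNReal.ofReal_le_ofReal_iff (by positivity)).1 (h3.trans (hidx3 (p n)))
      change g (ℓ k) ≤ η * g (r (a n)) at h4
      by_contra hcon
      have h5 := hg.mono _ _ (hF.pos (a n)) (not_le.1 hcon).le
      nlinarith
    exact (Set.infinite_of_injective_forall_mem hinj hlt) (hF.small _ (hℓ k))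

theorem content_lower (hg : Gauge g C) (hC : 1 ≤ C) {ι : Type} [Countable ι] {c r : ι → ℝ}
    (hF : Fam g c r) (hℓ : ∀ k, 0 < ℓ k) (hη : 0 < η) (hη2 : η * (216 * C) ≤ 1)
    (ρ : ℝ) (hρ : 0 < ρ) (hρ1 : ρ ≤ 1 / 8) (hℓρ : ∀ k, ℓ k ≤ ρ)
    (hcov : ∀ x ∈ Icc (0 : ℝ) 1, {i | |x - c i| ≤ r i}.Infinite → ∃ k, |x - u k| < ℓ k) :
    ENNReal.ofReal (η * g ρ / (8 * ρ)) ≤ ∑' k, ENNReal.ofReal (g (ℓ k)) := by
  classical
  set M : ℕ := ⌊1 / (4 * ρ)⌋₊ with hM
  have hM1 : (M : ℝ) ≤ 1 / (4 * ρ) := Nat.floor_le (by positivity)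
  have hM2 : 1 / (4 * ρ) < M + 1 := Nat.lt_floor_add_one _
  have hM3 : 1 / (8 * ρ) ≤ M := by
    have h2 : (2 : ℝ) ≤ 1 / (4 * ρ) := by
      rw [le_div_iff₀ (by positivity)]; linarith
    have h3 : 1 / (8 * ρ) = 1 / (4 * ρ) / 2 := by field_simp; norm_num
    rw [h3]; linarith
  have hM4 : (M : ℝ) * (4 * ρ) ≤ 1 := (le_div_iff₀ (by positivity)).1 hM1
  have hgρ := hg.pos ρ hρ
  have hcell : ∀ j ∈ Finset.range M, ENNReal.ofReal (η * g ρ) ≤
      cost g u ℓ ((4 * j + 1) * ρ) ρ := by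
    intro j hj
    by_contra hcon
    rw [not_le] at hcon
    have hj1 : (j : ℝ) + 1 ≤ M := by exact_mod_cast Finset.mem_range.1 hj
    have hj0 : (0 : ℝ) ≤ j := Nat.cast_nonneg _
    obtain ⟨x, hx1, hx2, hx3⟩ := exists_point hg hC hF hℓ hη hη2 hρ
      (z := (4 * j + 1) * ρ) (by nlinarith) (by nlinarith) hcon.le
    rw [abs_le] at hx1
    obtain ⟨k, hk⟩ := hcov x ⟨by nlinarith [hx1.1], by nlinarith [hx1.2]⟩ hx2
    exact hx3 k hk
  calc ENNReal.ofReal (η * g ρ / (8 * ρ)) ≤ ENNReal.ofReal (∑ j ∈ Finset.range M, η * g ρ) := by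
        apply ENNReal.ofReal_le_ofReal
        rw [Finset.sum_const, Finset.card_range, nsmul_eq_mul]
        calc η * g ρ / (8 * ρ) = 1 / (8 * ρ) * (η * g ρ) := by ring
          _ ≤ M * (η * g ρ) := by gcongr
    _ = ∑ j ∈ Finset.range M, ENNReal.ofReal (η * g ρ) := by
        rw [ENNReal.ofReal_sum_of_nonneg]
        intro j _
        positivity
    _ ≤ ∑ j ∈ Finset.range M, cost g u ℓ ((4 * j + 1) * ρ) ρ := Finset.sum_le_sum hcell
    _ ≤ ∑' k, ENNReal.ofReal (g (ℓ k)) := by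
        unfold cost
        rw [← Summable.tsum_finsetSum (fun _ _ => ENNReal.summable)]
        apply ENNReal.tsum_le_tsum
        intro k
        by_cases hk : ∃ j ∈ Finset.range M, |u k - (4 * j + 1) * ρ| < ℓ k + ρ
        · obtain ⟨j, hj, hjk⟩ := hk
          rw [Finset.sum_eq_single j]
          · rw [if_pos hjk]
          · intro i _ hij
            rw [if_neg]
            intro hik
            apply hij
            rw [abs_lt] at hik hjk
            have h2 := hℓρ k
            have h3 : ((i : ℝ) - j) * (4 * ρ) < 4 * ρ := by linarith [hik.1, hjk.2]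
            have h4 : ((j : ℝ) - i) * (4 * ρ) < 4 * ρ := by linarith [hik.2, hjk.1]
            have h5 : (i : ℝ) - j < 1 := by
              by_contra h; rw [not_lt] at h; nlinarith
            have h6 : (j : ℝ) - i < 1 := by
              by_contra h; rw [not_lt] at h; nlinarith
            have h7 : (i : ℝ) < j + 1 := by linarith
            have h8 : (j : ℝ) < i + 1 := by linarith
            have h9 : i < j + 1 := by exact_mod_cast h7
            have h10 : j < i + 1 := by exact_mod_cast h8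
            omega
          · intro h; exact absurd hj h
        · push Not at hk
          rw [Finset.sum_eq_zero]
          · exact zero_le
          · intro j hj
            rw [if_neg (not_lt.2 (hk j hj))]

end

end Pool.Agent.TH443.MJ
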