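import Pool.Agent.TH443.MJ.Main

/-!
The Hausdorff measure of the limsup set is infinite (raw form).
-/

set_option autoImplicit false

open MeasureTheory Filter Set Metric Topology
open scoped ENNReal

namespace Pool.Agent.TH443.MJ

/-- the value of the dimension function at a diameter -/
noncomputable def dimVal (f : ℝ → ℝ) (a : ℝ≥0∞) : ℝ≥0∞ := if a = 0 then 0 else ENNReal.ofReal (f a.toReal)

/-- passing from the series to the sum over the integers -/
theorem series_bound {m : ℕ} {e : ℕ} {f : ℝ → ℝ} {C : ℝ} (hC : 1 ≤ C)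
    (hg : Gauge (fun r => f r / r ^ e) C) {ψ : ℕ → ℝ}
    (hψpos : ∀ n, 1 ≤ n → 0 < ψ n)
    (hser : ∑' q : {q : Fin (m + 1) → ℤ // q ≠ 0},
      ENNReal.ofReal (((Finset.univ.sup (fun j => (q.1 j).natAbs) : ℕ) : ℝ) ^ (e + 1) *
        ((ψ (Finset.univ.sup (fun j => (q.1 j).natAbs))) ^ e)⁻¹ *
        f (ψ (Finset.univ.sup (fun j => (q.1 j).natAbs)) /
          ((Finset.univ.sup (fun j => (q.1 j).natAbs) : ℕ) : ℝ))) = ⊤) :
    ¬ Summable (fun n : ℕ => (n : ℝ) ^ (m + 1) *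
      (fun r => f r / r ^ e) (ψ (max n 1) / (2 * ((max n 1 : ℕ) : ℝ)))) := by
  intro hs
  set g : ℝ → ℝ := fun r => f r / r ^ e with hgdef
  have hC0 : 0 < C := by linarith
  set F : ℕ → ℝ≥0∞ := fun n => ENNReal.ofReal (2 * C * (n * g (ψ (max n 1) /
    (2 * ((max n 1 : ℕ) : ℝ))))) with hF
  have hle : ∑' q : {q : Fin (m + 1) → ℤ // q ≠ 0},
      ENNReal.ofReal (((Finset.univ.sup (fun j => (q.1 j).natAbs) : ℕ) : ℝ) ^ (e + 1) *
        ((ψ (Finset.univ.sup (fun j => (q.1 j).natAbs))) ^ e)⁻¹ *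
        f (ψ (Finset.univ.sup (fun j => (q.1 j).natAbs)) /
          ((Finset.univ.sup (fun j => (q.1 j).natAbs) : ℕ) : ℝ))) ≤
      ∑' q : {q : Fin (m + 1) → ℤ // q ≠ 0}, F (Finset.univ.sup (fun j => (q.1 j).natAbs)) := by
    apply ENNReal.tsum_le_tsum
    rintro ⟨q, hq⟩
    simp only
    set N : ℕ := Finset.univ.sup (fun j => (q j).natAbs) with hN
    have hN1 : 1 ≤ N := by
      by_contra hcon
      apply hq
      funext j
      have h1 := Finset.le_sup (f := fun j => (q j).natAbs) (Finset.mem_univ j)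
      have h2 : (q j).natAbs = 0 := by
        have : (q j).natAbs ≤ N := h1
        omega
      exact Int.natAbs_eq_zero.1 h2
    have hN0 : (0 : ℝ) < N := by exact_mod_cast hN1
    have hψN := hψpos N hN1
    rw [hF]
    apply ENNReal.ofReal_le_ofReal
    have hmax : max N 1 = N := max_eq_left hN1
    rw [hmax]
    have h1 : (N : ℝ) ^ (e + 1) * (ψ N ^ e)⁻¹ * f (ψ N / N) = N * g (ψ N / N) := by
      rw [hgdef]
      simp only
      rw [div_pow]
      field_simp
      ring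
    rw [h1]
    have h2 := hg.quasi (ψ N / (2 * N)) (ψ N / N) (by positivity) (by
      apply div_le_div_of_nonneg_left hψN.le hN0
      linarith)
    change g (ψ N / N) * (ψ N / (2 * N)) ≤ C * (g (ψ N / (2 * N)) * (ψ N / N)) at h2
    have h3 : g (ψ N / N) ≤ 2 * C * g (ψ N / (2 * N)) := by
      have h4 : 0 < ψ N / (2 * N) := by positivity
      have h5 : ψ N / N = 2 * (ψ N / (2 * N)) := by field_simp
      rw [show C * (g (ψ N / (2 * N)) * (ψ N / N)) = 2 * C * g (ψ N / (2 * N)) *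
        (ψ N / (2 * N)) by rw [h5]; ring] at h2
      exact le_of_mul_le_mul_right h2 h4
    nlinarith
  have h2 := hle.trans (sum_over_norm m F)
  rw [hser, top_le_iff] at h2
  have h3 : ∑' n : ℕ, (n : ℝ≥0∞) ^ m * F n ≠ ⊤ := by
    have h4 : ∀ n : ℕ, (n : ℝ≥0∞) ^ m * F n = ENNReal.ofReal (2 * C * ((n : ℝ) ^ (m + 1) *
        g (ψ (max n 1) / (2 * ((max n 1 : ℕ) : ℝ))))) := by
      intro n
      rw [hF]
      simp only
      rw [← ENNReal.ofReal_natCast, ← ENNReal.ofReal_pow (Nat.cast_nonneg _),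
        ← ENNReal.ofReal_mul (by positivity)]
      congr 1
      ring
    simp_rw [h4]
    exact (hs.mul_left (2 * C)).tsum_ofReal_ne_top
  have h5 : (2 * (m + 1) * 3 ^ m : ℝ≥0∞) ≠ ⊤ := by
    apply ENNReal.mul_ne_top
    · apply ENNReal.mul_ne_top (by norm_num)
      exact ENNReal.add_ne_top.2 ⟨ENNReal.natCast_ne_top _, ENNReal.one_ne_top⟩
    · exact ENNReal.pow_ne_top (by norm_num)
  exact ENNReal.mul_ne_top h5 h3 h2

theorem final_raw {m d : ℕ} {f : ℝ → ℝ} {s C : ℝ} (hf : ∀ r, 0 < r → 0 < f r)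
    (hlim : Tendsto f (𝓝[>] 0) (𝓝 0))
    (hmono : ∀ x y, 0 < x → x ≤ y →
      f x / x ^ ((d + 1) * (m + 1) - 1) ≤ f y / y ^ ((d + 1) * (m + 1) - 1))
    (hs : s < (((d + 1) * (m + 1) - 1 : ℕ) : ℝ) + 1) (hC : 0 < C)
    (hA : ∀ x y, 0 < x → x < y → f y ≤ C * (y / x) ^ s * f x)
    {ψ : ℕ → ℝ} {θ : Fin (d + 1) → ℝ} (hθ : ∀ i, θ i ∈ Icc (0 : ℝ) 1)
    (hψpos : ∀ n, 1 ≤ n → 0 < ψ n) (hψ : ∀ a b, 1 ≤ a → a ≤ b → ψ b ≤ ψ a)
    (hdiv : ¬ Summable (fun n : ℕ => (n : ℝ) ^ (m + 1) *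
      (fun r => f r / r ^ ((d + 1) * (m + 1) - 1)) (ψ (max n 1) / (2 * ((max n 1 : ℕ) : ℝ)))))
    (n : ℕ) : ∀ᶠ ρ : ℝ in 𝓝[>] 0, ∀ B : ℕ → Set (Fin (d + 1) → Fin (m + 1) → ℝ),
      WW m d ψ θ ⊆ ⋃ i, B i → (∀ i, ediam (B i) ≤ ENNReal.ofReal ρ) →
      ((n : ℝ≥0∞) + 1) ≤ ∑' i, dimVal f (ediam (B i)) := by
  classical
  set e : ℕ := (d + 1) * (m + 1) - 1 with he
  have hg : Gauge (fun r => f r / r ^ e) (max C 1) := gauge_of hf hmono hs hC hA
  set C' : ℝ := max C 1 with hC'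
  have hC'1 : 1 ≤ C' := le_max_right _ _
  have hC'0 : 0 < C' := by linarith
  set D : ℝ := C * 2 ^ s with hD
  have hDpos : 0 < D := by
    have : (0 : ℝ) < 2 ^ s := Real.rpow_pos_of_pos two_pos _
    positivity
  obtain ⟨δ0, hδ0, hbig⟩ := hg.big (8 * (216 * C') * (D * (n + 2)))
  have hpos : (0 : ℝ) < min (δ0 / 2) (1 / 16) := lt_min (by positivity) (by norm_num)
  filter_upwards [Ioo_mem_nhdsGT hpos] with ρ hρ B hcov hdiam
  have hρ0 : 0 < ρ := hρ.1
  have hρ1 : ρ < δ0 / 2 := hρ.2.trans_le (min_le_left _ _)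
  have hρ2 : ρ < 1 / 16 := hρ.2.trans_le (min_le_right _ _)
  -- tiny radii for the sets of diameter zero
  have htiny : ∀ i : ℕ, ∃ δ : ℝ, 0 < δ ∧ δ ≤ ρ ∧ f δ ≤ (1 / 2) ^ (i + 1) := by
    intro i
    have h1 : ∀ᶠ δ : ℝ in 𝓝[>] 0, f δ < (1 / 2) ^ (i + 1) :=
      hlim.eventually (gt_mem_nhds (by positivity))
    obtain ⟨δ, h2, h3⟩ := (h1.and (Ioo_mem_nhdsGT hρ0)).exists
    exact ⟨δ, h3.1, h3.2.le, h2.le⟩
  choose τ hτ0 hτρ hτf using htiny
  set δ : ℕ → ℝ := fun i => if ediam (B i) = 0 then τ i else (ediam (B i)).toReal with hδ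
  have hfin : ∀ i, ediam (B i) ≠ ⊤ := fun i => ((hdiam i).trans_lt ENNReal.ofReal_lt_top).ne
  have hδ0' : ∀ i, 0 < δ i := by
    intro i
    simp only [hδ]
    split_ifs with h
    · exact hτ0 i
    · exact ENNReal.toReal_pos h (hfin i)
  have hδρ : ∀ i, δ i ≤ ρ := by
    intro i
    simp only [hδ]
    split_ifs with h
    · exact hτρ i
    · exact ENNReal.toReal_le_of_le_ofReal hρ0.le (hdiam i)
  set b : ℕ → Fin (d + 1) → Fin (m + 1) → ℝ := fun i =>
    if h : (B i).Nonempty then h.some else 0 with hb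
  have hcov' : ∀ X ∈ WW m d ψ θ, ∃ i, dist X (b i) ≤ δ i := by
    intro X hX
    obtain ⟨i, hi⟩ := mem_iUnion.1 (hcov hX)
    refine ⟨i, ?_⟩
    have hne : (B i).Nonempty := ⟨X, hi⟩
    have hbi : b i ∈ B i := by
      simp only [hb, dif_pos hne]
      exact hne.some_mem
    have h1 : edist X (b i) ≤ ediam (B i) := edist_le_ediam_of_mem hi hbi
    simp only [hδ]
    split_ifs with h
    · rw [h, nonpos_iff_eq_zero, edist_eq_zero] at h1
      rw [h1, dist_self]
      exact (hτ0 i).le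
    · rw [edist_dist] at h1
      have := ENNReal.toReal_mono (hfin i) h1
      rwa [ENNReal.toReal_ofReal dist_nonneg] at this
  have h1 := cover_bound (f := f) (g := fun r => f r / r ^ e) (C := C') (m := m) (d := d)
    (fun r hr => by
      show f r / r ^ e * r ^ ((d + 1) * (m + 1) - 1) = f r
      rw [← he]; field_simp) hg hC'1 hθ hψpos hψ hdiv ρ hρ0 hρ2.le b δ hδ0' hδρ hcov'
  have h2 : ENNReal.ofReal (D * (n + 2)) ≤ ENNReal.ofReal (f (2 * ρ) / (2 * ρ) ^ e /
      (216 * C') / (16 * ρ)) := by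
    apply ENNReal.ofReal_le_ofReal
    have h3 := hbig (2 * ρ) (by positivity) (by linarith)
    change 8 * (216 * C') * (D * (n + 2)) * (2 * ρ) ≤ f (2 * ρ) / (2 * ρ) ^ e at h3
    rw [le_div_iff₀ (by positivity), le_div_iff₀ (by positivity)]
    calc D * (n + 2) * (16 * ρ) * (216 * C') = 8 * (216 * C') * (D * (n + 2)) * (2 * ρ) := by ring
      _ ≤ _ := h3
  have h4 : ∑' k, ENNReal.ofReal (f (2 * δ k)) ≤
      ENNReal.ofReal D * (∑' i, dimVal f (ediam (B i)) + 1) := by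
    have h5 : ∀ k, ENNReal.ofReal (f (2 * δ k)) ≤ ENNReal.ofReal D *
        (dimVal f (ediam (B k)) + ENNReal.ofReal ((1 / 2) ^ (k + 1))) := by
      intro k
      have h6 : f (2 * δ k) ≤ D * f (δ k) := by
        have := hA (δ k) (2 * δ k) (hδ0' k) (by linarith [hδ0' k])
        rwa [mul_div_assoc, div_self (hδ0' k).ne', mul_one] at this
      calc ENNReal.ofReal (f (2 * δ k)) ≤ ENNReal.ofReal (D * f (δ k)) :=
            ENNReal.ofReal_le_ofReal h6
        _ = ENNReal.ofReal D * ENNReal.ofReal (f (δ k)) := ENNReal.ofReal_mul hDpos.le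
        _ ≤ _ := by
            gcongr
            unfold dimVal
            simp only [hδ]
            split_ifs with h
            · rw [zero_add]
              exact ENNReal.ofReal_le_ofReal (hτf k)
            · exact le_self_add
    calc ∑' k, ENNReal.ofReal (f (2 * δ k)) ≤ ∑' k, ENNReal.ofReal D *
        (dimVal f (ediam (B k)) + ENNReal.ofReal ((1 / 2) ^ (k + 1))) := ENNReal.tsum_le_tsum h5
      _ = ENNReal.ofReal D * (∑' i, dimVal f (ediam (B i)) +
          ∑' k : ℕ, ENNReal.ofReal ((1 / 2) ^ (k + 1))) := by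
          rw [ENNReal.tsum_mul_left, ENNReal.tsum_add]
      _ = _ := by
          congr 2
          have hsum : HasSum (fun k : ℕ => ((1 : ℝ) / 2) ^ (k + 1)) 1 := by
            have := hasSum_geometric_two' (1 : ℝ)
            convert this using 2
            rename_i k
            rw [pow_succ, div_pow, one_pow]
            field_simp
          rw [← ENNReal.ofReal_tsum_of_nonneg (fun k => by positivity) hsum.summable,
            hsum.tsum_eq, ENNReal.ofReal_one]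
  have h7 : ENNReal.ofReal D * ((n : ℝ≥0∞) + 1 + 1) ≤
      ENNReal.ofReal D * (∑' i, dimVal f (ediam (B i)) + 1) := by
    calc ENNReal.ofReal D * ((n : ℝ≥0∞) + 1 + 1) = ENNReal.ofReal (D * (n + 2)) := by
          rw [ENNReal.ofReal_mul hDpos.le]
          congr 1
          rw [show (n : ℝ) + 2 = ((n + 1 + 1 : ℕ) : ℝ) by push_cast; ring,
            ENNReal.ofReal_natCast]
          push_cast
          rfl
      _ ≤ _ := (h2.trans h1).trans h4
  have h8 : ENNReal.ofReal D ≠ 0 := by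
    rw [Ne, ENNReal.ofReal_eq_zero, not_le]; exact hDpos
  have h9 := (ENNReal.mul_le_mul_iff_right h8 ENNReal.ofReal_ne_top).1 h7
  exact (ENNReal.add_le_add_iff_right ENNReal.one_ne_top).1 h9

end Pool.Agent.TH443.MJ
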