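import Pool.Agent.TH113.J1496
import Pool.Agent.TH429.MJ.Vol
import Pool.Agent.TH429.MJ.Ubi
import Pool.Agent.TH266.MJ_BC
import Pool.Agent.TH266.MJ_Prim
import Pool.Agent.TH89.KGZero
import Pool.Agent.TH384.MJ.KgSucc

/-!
Inhomogeneous Khintchine-Groshev theorem for one linear form, divergence, nonincreasing radii.
-/

set_option autoImplicit false

open MeasureTheory Filter Set

namespace Pool.Agent.TH443.MJ

theorem kg (m : ℕ) (θ : ℝ) (Φ : ℕ → ℝ) (h0 : ∀ n, 0 < Φ n) (hm : Antitone Φ)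
    (hdiv : ¬ Summable (fun n : ℕ => (n : ℝ) ^ (m + 1) * Φ n)) :
    ∀ᵐ x : Fin (m + 1) → ℝ ∂(volume.restrict (Set.Icc 0 1)),
      {i : (Fin (m + 1) → ℤ) × ℤ | 0 < i.1 0 ∧ (∀ j, |i.1 j| ≤ i.1 0) ∧
        |∑ j, (i.1 j : ℝ) * x j - i.2 - θ| < (i.1 0 : ℝ) * Φ (i.1 0).toNat}.Infinite := by
  rcases m with _ | k
  · refine kg_zero cover_one ?_ θ Φ h0 hm (by simpa using hdiv)
    intro κ hκ P Φ h0 h1 h2 h3
    exact ubiquity κ hκ P Φ h0 h1 h2 h3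
  · exact kg_succ vol_single vol_pair (fun μ _ _ _ A hA hi hs => bc_pairwise μ A hA hi hs)
      prim_sum k θ Φ h0 hm hdiv

/-- truncated version -/
theorem kg_trunc (m : ℕ) (θ : ℝ) (Φ : ℕ → ℝ) (h0 : ∀ n, 0 < Φ n) (hm : Antitone Φ)
    (hdiv : ¬ Summable (fun n : ℕ => (n : ℝ) ^ (m + 1) * Φ n)) (τ : ℝ) (hτ : 0 < τ) :
    ∀ᵐ x : Fin (m + 1) → ℝ ∂(volume.restrict (Set.Icc 0 1)),
      {i : (Fin (m + 1) → ℤ) × ℤ | 0 < i.1 0 ∧ (∀ j, |i.1 j| ≤ i.1 0) ∧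
        |∑ j, (i.1 j : ℝ) * x j - i.2 - θ| < (i.1 0 : ℝ) * min (Φ (i.1 0).toNat) τ}.Infinite := by
  refine kg m θ (fun n => min (Φ n) τ) (fun n => lt_min (h0 n) hτ)
    (fun a b h => min_le_min_right _ (hm h)) ?_
  intro hs
  apply hdiv
  have h1 := hs.tendsto_atTop_zero
  have h2 : ∀ᶠ n : ℕ in atTop, (n : ℝ) ^ (m + 1) * min (Φ n) τ < τ := by
    exact h1.eventually (gt_mem_nhds hτ)
  have h3 : ∀ᶠ n : ℕ in atTop, (n : ℝ) ^ (m + 1) * min (Φ n) τ = (n : ℝ) ^ (m + 1) * Φ n := by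
    filter_upwards [h2, eventually_ge_atTop 1] with n hn hn1
    rcases le_total (Φ n) τ with h | h
    · rw [min_eq_left h]
    · rw [min_eq_right h] at hn
      have : (1 : ℝ) ≤ (n : ℝ) ^ (m + 1) := one_le_pow₀ (by exact_mod_cast hn1)
      nlinarith
  obtain ⟨N, hN⟩ := eventually_atTop.1 h3
  rw [← summable_nat_add_iff N] at hs ⊢
  refine hs.congr fun n => hN _ (by omega)

end Pool.Agent.TH443.MJ
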