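import Pool.Agent.TH443.MJ.Bound

/-!
Lower bound for the cost of a countable cover: integration over the lines, and the gauge of a
dimension function.
-/

set_option autoImplicit false

open MeasureTheory Filter Set Metric
open scoped ENNReal

namespace Pool.Agent.TH443.MJ

theorem cube_vol (m d : ℕ) :
    volume {X : Fin (d + 1) → Fin (m + 1) → ℝ | ∀ i j, X i j ∈ Icc (0 : ℝ) 1} = 1 := by
  have h : {X : Fin (d + 1) → Fin (m + 1) → ℝ | ∀ i j, X i j ∈ Icc (0 : ℝ) 1} =
      Set.pi Set.univ (fun _ => Set.pi Set.univ (fun _ => Icc (0 : ℝ) 1)) := by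
    ext X
    constructor
    · intro h i _ j _; exact h i j
    · intro h i j; exact h i (mem_univ _) j (mem_univ _)
  rw [h, volume_pi_pi]
  simp_rw [volume_pi_pi, Real.volume_Icc]
  simp

theorem cube_meas (m d : ℕ) :
    MeasurableSet {X : Fin (d + 1) → Fin (m + 1) → ℝ | ∀ i j, X i j ∈ Icc (0 : ℝ) 1} := by
  have h : {X : Fin (d + 1) → Fin (m + 1) → ℝ | ∀ i j, X i j ∈ Icc (0 : ℝ) 1} =
      Set.pi Set.univ (fun _ => Set.pi Set.univ (fun _ => Icc (0 : ℝ) 1)) := by
    ext X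
    constructor
    · intro h i _ j _; exact h i j
    · intro h i j; exact h i (mem_univ _) j (mem_univ _)
  rw [h]
  exact MeasurableSet.univ_pi fun _ => MeasurableSet.univ_pi fun _ => measurableSet_Icc

theorem slab_meas (m d : ℕ) (b : Fin (d + 1) → Fin (m + 1) → ℝ) (δ : ℝ) :
    MeasurableSet {X : Fin (d + 1) → Fin (m + 1) → ℝ |
      ∀ i j, (i, j) ≠ (0, 0) → |X i j - b i j| ≤ δ} := by
  have h : {X : Fin (d + 1) → Fin (m + 1) → ℝ | ∀ i j, (i, j) ≠ (0, 0) → |X i j - b i j| ≤ δ} =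
      ⋂ i, ⋂ j, {X | (i, j) ≠ (0, 0) → |X i j - b i j| ≤ δ} := by
    ext X; simp
  rw [h]
  refine MeasurableSet.iInter fun i => MeasurableSet.iInter fun j => ?_
  by_cases hij : (i, j) = ((0 : Fin (d + 1)), (0 : Fin (m + 1)))
  · simp [hij]
  · have : {X : Fin (d + 1) → Fin (m + 1) → ℝ | (i, j) ≠ (0, 0) → |X i j - b i j| ≤ δ} =
        {X | |X i j - b i j| ≤ δ} := by
      ext X; simp [hij]
    rw [this]
    apply measurableSet_le _ measurable_const
    fun_prop

theorem cover_bound {m d : ℕ} {f g : ℝ → ℝ} {C : ℝ}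
    (hfg : ∀ r, 0 < r → g r * r ^ ((d + 1) * (m + 1) - 1) = f r) (hg : Gauge g C) (hC : 1 ≤ C)
    {ψ : ℕ → ℝ} {θ : Fin (d + 1) → ℝ} (hθ : ∀ i, θ i ∈ Icc (0 : ℝ) 1)
    (hψpos : ∀ n, 1 ≤ n → 0 < ψ n) (hψ : ∀ a b, 1 ≤ a → a ≤ b → ψ b ≤ ψ a)
    (hdiv : ¬ Summable (fun n : ℕ => (n : ℝ) ^ (m + 1) *
      g (ψ (max n 1) / (2 * ((max n 1 : ℕ) : ℝ)))))
    (ρ : ℝ) (hρ : 0 < ρ) (hρ1 : ρ ≤ 1 / 16) (b : ℕ → Fin (d + 1) → Fin (m + 1) → ℝ) (δ : ℕ → ℝ)
    (hδ : ∀ i, 0 < δ i) (hδρ : ∀ i, δ i ≤ ρ) (hcov : ∀ X ∈ WW m d ψ θ, ∃ i, dist X (b i) ≤ δ i) :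
    ENNReal.ofReal (g (2 * ρ) / (216 * C) / (16 * ρ)) ≤ ∑' k, ENNReal.ofReal (f (2 * δ k)) := by
  classical
  set Φ : ℕ → ℝ := fun n => g (ψ (max n 1) / (2 * ((max n 1 : ℕ) : ℝ))) with hΦ
  have hmax : ∀ n : ℕ, (0 : ℝ) < ((max n 1 : ℕ) : ℝ) := fun n => by
    have : 0 < max n 1 := by omega
    exact_mod_cast this
  have hΦ0 : ∀ n, 0 < Φ n := fun n => by
    apply hg.pos
    have := hψpos (max n 1) (le_max_right _ _)
    have := hmax n
    positivity
  have hΦm : Antitone Φ := by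
    intro a c hac
    apply hg.mono
    · have := hψpos (max c 1) (le_max_right _ _)
      have := hmax c
      positivity
    · have h1 : max a 1 ≤ max c 1 := max_le_max_right 1 hac
      have h2 := hψ (max a 1) (max c 1) (le_max_right _ _) h1
      have h3 : ((max a 1 : ℕ) : ℝ) ≤ ((max c 1 : ℕ) : ℝ) := by exact_mod_cast h1
      have h4 := hmax a
      have h5 := (hψpos (max c 1) (le_max_right _ _)).le
      apply div_le_div₀ (h5.trans h2) h2 (by positivity)
      linarith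
  have hae : ∀ᵐ X : Fin (d + 1) → Fin (m + 1) → ℝ, ∀ k : ℕ, (∀ j, X 0 j ∈ Icc (0 : ℝ) 1) →
      ∀ᵐ t : ℝ ∂(volume.restrict (Icc 0 1)),
      {i : (Fin (m + 1) → ℤ) × ℤ | 0 < i.1 0 ∧ (∀ j, |i.1 j| ≤ i.1 0) ∧
        |∑ j, (i.1 j : ℝ) * (Fin.cons t (Fin.tail (X 0)) : Fin (m + 1) → ℝ) j - i.2 - θ 0| <
          (i.1 0 : ℝ) * min (Φ (i.1 0).toNat) (1 / ((k : ℝ) + 1))}.Infinite := by
    rw [ae_all_iff]
    intro k
    exact ae_slice m d (fun x => {i : (Fin (m + 1) → ℤ) × ℤ | 0 < i.1 0 ∧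
      (∀ j, |i.1 j| ≤ i.1 0) ∧ |∑ j, (i.1 j : ℝ) * x j - i.2 - θ 0| <
          (i.1 0 : ℝ) * min (Φ (i.1 0).toNat) (1 / ((k : ℝ) + 1))}.Infinite)
      (kg_trunc m (θ 0) Φ hΦ0 hΦm hdiv _ (by positivity))
  set Q : Set (Fin (d + 1) → Fin (m + 1) → ℝ) := {X | ∀ i j, X i j ∈ Icc (0 : ℝ) 1} with hQ
  set S : ℕ → Set (Fin (d + 1) → Fin (m + 1) → ℝ) := fun k =>
    {X | ∀ i j, (i, j) ≠ (0, 0) → |X i j - b k i j| ≤ δ k} with hS
  have hbd : ∀ᵐ X ∂(volume.restrict Q), ENNReal.ofReal (g (2 * ρ) / (216 * C) / (16 * ρ)) ≤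
      ∑' k, (S k).indicator (fun _ => ENNReal.ofReal (g (2 * δ k))) X := by
    rw [ae_restrict_iff' (cube_meas m d)]
    filter_upwards [hae] with X hX hXQ
    exact line_bound hg hC hψpos X hXQ
      (fam_of hg (θ 0) (hθ 0) hψpos hψ (X 0) (fun j => hXQ 0 j) (fun k => hX k fun j => hXQ 0 j))
      ρ hρ hρ1 b δ hδ hδρ hcov
  calc ENNReal.ofReal (g (2 * ρ) / (216 * C) / (16 * ρ))
      = ∫⁻ _X in Q, ENNReal.ofReal (g (2 * ρ) / (216 * C) / (16 * ρ)) := by
        rw [setLIntegral_const, hQ, cube_vol, mul_one]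
    _ ≤ ∫⁻ X in Q, ∑' k, (S k).indicator (fun _ => ENNReal.ofReal (g (2 * δ k))) X :=
        lintegral_mono_ae hbd
    _ = ∑' k, ∫⁻ X in Q, (S k).indicator (fun _ => ENNReal.ofReal (g (2 * δ k))) X := by
        rw [lintegral_tsum]
        intro k
        exact (measurable_const.indicator (slab_meas m d (b k) (δ k))).aemeasurable
    _ = ∑' k, ENNReal.ofReal (g (2 * δ k)) * volume (S k ∩ Q) := by
        refine tsum_congr fun k => ?_
        rw [lintegral_indicator_const (slab_meas m d (b k) (δ k)),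
          Measure.restrict_apply (slab_meas m d (b k) (δ k))]
    _ ≤ ∑' k, ENNReal.ofReal (f (2 * δ k)) := by
        apply ENNReal.tsum_le_tsum
        intro k
        calc ENNReal.ofReal (g (2 * δ k)) * volume (S k ∩ Q)
            ≤ ENNReal.ofReal (g (2 * δ k)) *
              ENNReal.ofReal ((2 * δ k) ^ ((d + 1) * (m + 1) - 1)) := by
              gcongr
              exact vol_slab m d (b k) (δ k) (hδ k)
          _ = ENNReal.ofReal (f (2 * δ k)) := by
              have h2 : (0 : ℝ) < 2 * δ k := by have := hδ k; positivity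
              rw [← ENNReal.ofReal_mul (hg.pos _ h2).le, hfg _ h2]

/-- the gauge of a dimension function -/
theorem gauge_of {f : ℝ → ℝ} {e : ℕ} {s C : ℝ} (hf : ∀ r, 0 < r → 0 < f r)
    (hmono : ∀ x y, 0 < x → x ≤ y → f x / x ^ e ≤ f y / y ^ e) (hs : s < e + 1) (hC : 0 < C)
    (hA : ∀ x y, 0 < x → x < y → f y ≤ C * (y / x) ^ s * f x) :
    Gauge (fun r => f r / r ^ e) (max C 1) where
  pos r hr := by have := hf r hr; positivity
  mono := hmono
  quasi x y hx hxy := by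
    have hy : 0 < y := hx.trans_le hxy
    have hfx := hf x hx
    have hfy := hf y hy
    show f y / y ^ e * x ≤ max C 1 * (f x / x ^ e * y)
    rcases hxy.eq_or_lt with rfl | hlt
    · have : (1 : ℝ) ≤ max C 1 := le_max_right _ _
      have h2 : 0 ≤ f x / x ^ e * x := by positivity
      nlinarith
    · have h1 : 1 ≤ y / x := by rw [le_div_iff₀ hx]; linarith
      have h2 : f y ≤ C * (y / x) ^ (e + 1) * f x := by
        refine (hA x y hx hlt).trans ?_
        have h3 : (y / x) ^ s ≤ (y / x) ^ (e + 1) := by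
          rw [← Real.rpow_natCast]
          apply Real.rpow_le_rpow_of_exponent_le h1
          push_cast; exact hs.le
        gcongr
      calc f y / y ^ e * x ≤ C * (y / x) ^ (e + 1) * f x / y ^ e * x := by gcongr
        _ = C * (f x / x ^ e * y) := by
            rw [div_pow]
            field_simp
            ring
        _ ≤ max C 1 * (f x / x ^ e * y) := by
            gcongr
            exact le_max_left _ _
  big M := by
    have hf1 := hf 1 one_pos
    set α : ℝ := e + 1 - s with hα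
    have hαpos : 0 < α := by linarith
    set A : ℝ := f 1 / (C * (|M| + 1)) with hA'
    have hA0 : 0 < A := by positivity
    refine ⟨min 1 (A ^ (1 / α)), lt_min one_pos (Real.rpow_pos_of_pos hA0 _), ?_⟩
    intro r hr hr1
    rw [lt_min_iff] at hr1
    have h1 := hA r 1 hr hr1.1
    have h2 : r ^ α < A := by
      have := Real.rpow_lt_rpow hr.le hr1.2 hαpos
      rwa [← Real.rpow_mul hA0.le, one_div_mul_cancel hαpos.ne', Real.rpow_one] at this
    show M * r ≤ f r / r ^ e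
    rw [le_div_iff₀ (by positivity)]
    have h3 : (1 / r : ℝ) ^ s = (r ^ s)⁻¹ := by
      rw [one_div, Real.inv_rpow hr.le]
    rw [h3] at h1
    have hrs : 0 < r ^ s := Real.rpow_pos_of_pos hr _
    have h4 : f 1 * r ^ s ≤ C * f r := by
      calc f 1 * r ^ s ≤ (C * (r ^ s)⁻¹ * f r) * r ^ s := by gcongr
        _ = C * f r := by field_simp
    have h5 : r ^ α * r ^ s = r * r ^ e := by
      rw [← Real.rpow_add hr, hα, show (e : ℝ) + 1 - s + s = ((e + 1 : ℕ) : ℝ) by push_cast; ring,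
        Real.rpow_natCast]
      ring
    have h6 : M * (C * r ^ α) ≤ f 1 := by
      have hr0 : 0 ≤ r ^ α := (Real.rpow_pos_of_pos hr _).le
      calc M * (C * r ^ α) ≤ (|M| + 1) * (C * r ^ α) := by
            gcongr
            have := le_abs_self M
            linarith
        _ ≤ (|M| + 1) * (C * A) := by gcongr
        _ = f 1 := by rw [hA']; field_simp
    have h7 : C * (M * r * r ^ e) ≤ C * f r := by
      calc C * (M * r * r ^ e) = M * (C * r ^ α) * r ^ s := by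
            rw [mul_assoc M r, ← h5]; ring
        _ ≤ f 1 * r ^ s := by gcongr
        _ ≤ C * f r := h4
    exact le_of_mul_le_mul_left h7 hC

end Pool.Agent.TH443.MJ
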