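import Mathlib

/-!
One dimensional mass transference: gauges, families of small intervals, and the choice of a finite
disjoint family of enlarged intervals.
-/

set_option autoImplicit false

open MeasureTheory Filter Set Metric
open scoped ENNReal

namespace Pool.Agent.TH443.MJ

/-- a gauge function: positive, nondecreasing, `g r / r` quasi-decreasing and unbounded at `0` -/
structure Gauge (g : ℝ → ℝ) (C : ℝ) : Prop where
  pos : ∀ r, 0 < r → 0 < g r
  mono : ∀ x y, 0 < x → x ≤ y → g x ≤ g y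
  quasi : ∀ x y, 0 < x → x ≤ y → g y * x ≤ C * (g x * y)
  big : ∀ M : ℝ, ∃ δ > 0, ∀ r, 0 < r → r < δ → M * r ≤ g r

/-- a family of small intervals such that almost every point of `[0, 1]` lies in infinitely many
of the enlarged intervals -/
structure Fam (g : ℝ → ℝ) {ι : Type} (c r : ι → ℝ) : Prop where
  pos : ∀ i, 0 < r i
  small : ∀ ε, 0 < ε → {i | ε ≤ r i}.Finite
  full : ∀ τ, 0 < τ → ∀ᵐ x : ℝ ∂(volume.restrict (Icc 0 1)),
    {i | |x - c i| < min (g (r i)) τ}.Infinite

theorem round_lemma {g : ℝ → ℝ} {C : ℝ} (hg : Gauge g C) {ι : Type} [Countable ι] {c r : ι → ℝ}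
    (hF : Fam g c r) (z s : ℝ) (hs : 0 < s) (h0 : 0 ≤ z - s) (h1 : z + s ≤ 1)
    (P : Finset ι) (hP : ∑ j ∈ P, r j ≤ s / 60) (G : Set ι) (hG : G.Finite)
    (τ : ℝ) (hτ : 0 < τ) (hτs : τ ≤ s / 4) (hτP : ∀ j ∈ P, τ ≤ r j / 2) (ε : ℝ) (hε : 0 < ε) :
    ∃ K : Finset ι, (∀ i ∈ K, i ∉ G) ∧ (∀ i ∈ K, r i ≤ ε * min (g (r i)) τ) ∧
      (∀ i ∈ K, |c i - z| + min (g (r i)) τ ≤ s) ∧ (∀ i ∈ K, ∀ j ∈ P, 2 * r j < |c i - c j|) ∧
      (∀ i ∈ K, ∀ j ∈ K, i ≠ j → min (g (r i)) τ + min (g (r j)) τ < |c i - c j|) ∧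
      s / 12 ≤ ∑ i ∈ K, min (g (r i)) τ := by
  classical
  set R : ι → ℝ := fun i => min (g (r i)) τ with hR
  have hRpos : ∀ i, 0 < R i := fun i => lt_min (hg.pos _ (hF.pos i)) hτ
  have hRτ : ∀ i, R i ≤ τ := fun i => min_le_right _ _
  obtain ⟨δ, hδ, hδ1⟩ := hg.big (1 / ε)
  set G' : Set ι := G ∪ {i | min δ (ε * τ) ≤ r i} with hG'
  have hG'f : G'.Finite := hG.union (hF.small _ (lt_min hδ (by positivity)))
  have hGood : ∀ i, i ∉ G' → r i ≤ ε * R i := by
    intro i hi
    rw [hG', mem_union, not_or, Set.mem_ofPred_eq, not_le, lt_min_iff] at hi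
    obtain ⟨-, hi1, hi2⟩ := hi
    have h2 := hδ1 (r i) (hF.pos i) hi1
    have h3 : r i ≤ ε * g (r i) := by
      have := mul_le_mul_of_nonneg_left h2 hε.le
      calc r i = ε * (1 / ε * r i) := by field_simp
        _ ≤ _ := this
    rw [hR]
    show r i ≤ ε * min (g (r i)) τ
    rw [mul_min_of_nonneg _ _ hε.le]
    exact le_min h3 hi2.le
  set D : Set ℝ := Icc (z - s / 2) (z + s / 2) \ ⋃ j ∈ P, closedBall (c j) (3 * r j) with hD
  have hDvol : ENNReal.ofReal (9 / 10 * s) ≤ volume D := by
    have e1 : volume (Icc (z - s / 2) (z + s / 2)) = ENNReal.ofReal s := by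
      rw [Real.volume_Icc]; congr 1; ring
    have e2 : volume (⋃ j ∈ P, closedBall (c j) (3 * r j)) ≤ ENNReal.ofReal (s / 10) := by
      calc volume (⋃ j ∈ P, closedBall (c j) (3 * r j))
          ≤ ∑ j ∈ P, volume (closedBall (c j) (3 * r j)) := measure_biUnion_finset_le _ _
        _ = ∑ j ∈ P, ENNReal.ofReal (6 * r j) := by
            refine Finset.sum_congr rfl fun j _ => ?_
            rw [Real.volume_closedBall]; congr 1; ring
        _ = ENNReal.ofReal (∑ j ∈ P, 6 * r j) := by
            rw [ENNReal.ofReal_sum_of_nonneg]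
            intro j _
            have := (hF.pos j).le
            positivity
        _ ≤ _ := by
            apply ENNReal.ofReal_le_ofReal
            rw [← Finset.mul_sum]; linarith
    calc ENNReal.ofReal (9 / 10 * s) = ENNReal.ofReal s - ENNReal.ofReal (s / 10) := by
          rw [← ENNReal.ofReal_sub _ (by positivity)]; congr 1; ring
      _ ≤ volume (Icc (z - s / 2) (z + s / 2)) -
          volume (⋃ j ∈ P, closedBall (c j) (3 * r j)) := by
          rw [e1]; exact tsub_le_tsub_left e2 _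
      _ ≤ volume D := le_measure_sdiff
  have hDsub : D ⊆ Icc (z - s / 2) (z + s / 2) := sdiff_subset
  have hDmeas : MeasurableSet D := by
    apply measurableSet_Icc.diff
    exact Finset.measurableSet_biUnion _ fun j _ => measurableSet_closedBall
  -- the covering
  have hcov : volume D ≤ volume (⋃ T : Finset {i // i ∉ G'}, D ∩ ⋃ i ∈ T, ball (c i.1) (R i.1)) := by
    apply measure_mono_ae
    have h2 := hF.full τ hτ
    rw [ae_restrict_iff' measurableSet_Icc] at h2
    filter_upwards [h2] with x hx hxD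
    have hxI : x ∈ Icc (0 : ℝ) 1 := by
      have := hDsub hxD
      constructor <;> [linarith [this.1]; linarith [this.2]]
    obtain ⟨i, hi, hi'⟩ := (hx hxI).exists_notMem_finite hG'f
    refine mem_iUnion.2 ⟨{⟨i, hi'⟩}, hxD, ?_⟩
    simp only [Finset.mem_singleton, iUnion_iUnion_eq_left, mem_ball, Real.dist_eq]
    exact hi
  rw [Directed.measure_iUnion] at hcov
  swap
  · intro T1 T2
    refine ⟨T1 ∪ T2, ?_, ?_⟩
    · apply inter_subset_inter_right
      exact biUnion_subset_biUnion_left (by intro i hi; exact Finset.mem_union_left _ hi)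
    · apply inter_subset_inter_right
      exact biUnion_subset_biUnion_left (by intro i hi; exact Finset.mem_union_right _ hi)
  have hlt : ENNReal.ofReal (17 / 20 * s) <
      ⨆ T : Finset {i // i ∉ G'}, volume (D ∩ ⋃ i ∈ T, ball (c i.1) (R i.1)) := by
    refine lt_of_lt_of_le ?_ (hDvol.trans hcov)
    rw [ENNReal.ofReal_lt_ofReal_iff (by positivity)]
    linarith
  obtain ⟨T, hT⟩ := lt_iSup_iff.1 hlt
  set t : Set {i // i ∉ G'} := {i | i ∈ T ∧ (ball (c i.1) (R i.1) ∩ D).Nonempty} with ht
  obtain ⟨v, hvt, hvd, hvc⟩ := Vitali.exists_disjoint_subfamily_covering_enlargement_closedBall t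
    (fun i => c i.1) (fun i => R i.1) τ (fun i _ => hRτ _) 5 (by norm_num)
  have hvfin : v.Finite := by
    refine (Finset.finite_toSet T).subset ?_
    intro i hi
    exact (hvt hi).1
  set K0 : Finset {i // i ∉ G'} := hvfin.toFinset with hK0
  have hmemK0 : ∀ i, i ∈ K0 ↔ i ∈ v := fun i => by rw [hK0, Finite.mem_toFinset]
  have hvol2 : volume (D ∩ ⋃ i ∈ T, ball (c i.1) (R i.1)) ≤
      ENNReal.ofReal (10 * ∑ i ∈ K0, R i.1) := by
    have hsub : D ∩ ⋃ i ∈ T, ball (c i.1) (R i.1) ⊆ ⋃ i ∈ K0, closedBall (c i.1) (5 * R i.1) := by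
      rintro x ⟨hxD, hx⟩
      simp only [mem_iUnion, exists_prop] at hx
      obtain ⟨i, hiT, hxi⟩ := hx
      have hit : i ∈ t := ⟨hiT, x, hxi, hxD⟩
      obtain ⟨b, hb, hib⟩ := hvc i hit
      simp only [mem_iUnion, exists_prop]
      exact ⟨b, (hmemK0 b).2 hb, hib (ball_subset_closedBall hxi)⟩
    calc volume (D ∩ ⋃ i ∈ T, ball (c i.1) (R i.1))
        ≤ volume (⋃ i ∈ K0, closedBall (c i.1) (5 * R i.1)) := measure_mono hsub
      _ ≤ ∑ i ∈ K0, volume (closedBall (c i.1) (5 * R i.1)) := measure_biUnion_finset_le _ _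
      _ = ∑ i ∈ K0, ENNReal.ofReal (10 * R i.1) := by
          refine Finset.sum_congr rfl fun j _ => ?_
          rw [Real.volume_closedBall]; congr 1; ring
      _ = ENNReal.ofReal (10 * ∑ i ∈ K0, R i.1) := by
          rw [Finset.mul_sum, ENNReal.ofReal_sum_of_nonneg]
          intro j _
          have := (hRpos j.1).le
          positivity
  have hsum : 17 / 20 * s < 10 * ∑ i ∈ K0, R i.1 := by
    have := lt_of_lt_of_le hT hvol2
    exact (ENNReal.ofReal_lt_ofReal_iff_of_nonneg (by positivity)).1 this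
  refine ⟨K0.map ⟨Subtype.val, Subtype.val_injective⟩, ?_, ?_, ?_, ?_, ?_, ?_⟩
  · intro i hi
    simp only [Finset.mem_map, Function.Embedding.coeFn_mk] at hi
    obtain ⟨j, -, rfl⟩ := hi
    exact fun h => j.2 (mem_union_left _ h)
  · intro i hi
    simp only [Finset.mem_map, Function.Embedding.coeFn_mk] at hi
    obtain ⟨j, -, rfl⟩ := hi
    exact hGood _ j.2
  · intro i hi
    simp only [Finset.mem_map, Function.Embedding.coeFn_mk] at hi
    obtain ⟨j, hj, rfl⟩ := hi
    obtain ⟨-, x, hx1, hx2⟩ := hvt ((hmemK0 j).1 hj)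
    have hx3 := hDsub hx2
    rw [mem_ball, Real.dist_eq, abs_lt] at hx1
    have h3 := hRτ j.1
    have h4 : |c j.1 - z| ≤ s / 2 + R j.1 := by
      rw [abs_le]
      constructor <;> [linarith [hx3.1]; linarith [hx3.2]]
    show |c j.1 - z| + R j.1 ≤ s
    linarith
  · intro i hi j hj
    simp only [Finset.mem_map, Function.Embedding.coeFn_mk] at hi
    obtain ⟨k, hk, rfl⟩ := hi
    obtain ⟨-, x, hx1, hx2⟩ := hvt ((hmemK0 k).1 hk)
    have hx3 : x ∉ closedBall (c j) (3 * r j) := by
      intro hx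
      apply hx2.2
      simp only [mem_iUnion, exists_prop]
      exact ⟨j, hj, hx⟩
    rw [mem_closedBall, Real.dist_eq, not_le] at hx3
    rw [mem_ball, Real.dist_eq] at hx1
    have h3 := hRτ k.1
    have h4 := hτP j hj
    have h5 : |x - c j| ≤ |x - c k.1| + |c k.1 - c j| := abs_sub_le _ _ _
    have h6 := hF.pos j
    linarith
  · intro i hi j hj hij
    simp only [Finset.mem_map, Function.Embedding.coeFn_mk] at hi hj
    obtain ⟨k, hk, rfl⟩ := hi
    obtain ⟨l, hl, rfl⟩ := hj
    have hkl : k ≠ l := fun h => hij (by rw [h])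
    have hd : Disjoint (closedBall (c k.1) (R k.1)) (closedBall (c l.1) (R l.1)) :=
      hvd ((hmemK0 k).1 hk) ((hmemK0 l).1 hl) hkl
    by_contra hcon
    rw [not_lt] at hcon
    change |c k.1 - c l.1| ≤ R k.1 + R l.1 at hcon
    have hk0 := hRpos k.1
    have hl0 := hRpos l.1
    rcases le_total (c k.1) (c l.1) with h | h
    · rw [abs_sub_comm, abs_of_nonneg (by linarith)] at hcon
      have hx : min (c k.1 + R k.1) (c l.1) ∈ closedBall (c k.1) (R k.1) := by
        rw [mem_closedBall, Real.dist_eq, abs_le]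
        constructor
        · have : c k.1 ≤ min (c k.1 + R k.1) (c l.1) := le_min (by linarith) h
          linarith
        · have := min_le_left (c k.1 + R k.1) (c l.1)
          linarith
      refine Set.disjoint_left.1 hd hx ?_
      rw [mem_closedBall, Real.dist_eq, abs_le]
      constructor
      · have : c l.1 - R l.1 ≤ min (c k.1 + R k.1) (c l.1) := le_min (by linarith) (by linarith)
        linarith
      · have := min_le_right (c k.1 + R k.1) (c l.1)
        linarith
    · rw [abs_of_nonneg (by linarith)] at hcon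
      have hx : min (c l.1 + R l.1) (c k.1) ∈ closedBall (c k.1) (R k.1) := by
        rw [mem_closedBall, Real.dist_eq, abs_le]
        constructor
        · have : c k.1 - R k.1 ≤ min (c l.1 + R l.1) (c k.1) := le_min (by linarith) (by linarith)
          linarith
        · have := min_le_right (c l.1 + R l.1) (c k.1)
          linarith
      refine Set.disjoint_left.1 hd hx ?_
      rw [mem_closedBall, Real.dist_eq, abs_le]
      constructor
      · have : c l.1 ≤ min (c l.1 + R l.1) (c k.1) := le_min (by linarith) h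
        linarith
      · have := min_le_left (c l.1 + R l.1) (c k.1)
        linarith
  · rw [Finset.sum_map]
    simp only [Function.Embedding.coeFn_mk]
    change s / 12 ≤ ∑ i ∈ K0, R i.1
    linarith

end Pool.Agent.TH443.MJ
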