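import Pool.Agent.TH443.MJ.KG
import Pool.Agent.TH443.MJ.Content

/-!
Slices of the limsup set in the direction of the first coordinate of the first form.
-/

set_option autoImplicit false

open MeasureTheory Filter Set Metric
open scoped ENNReal

namespace Pool.Agent.TH443.MJ

/-- the index set: `(q, p)` with `q 0 = |q| ≥ 1` and `p` in a bounded range -/
def Idx (m : ℕ) : Type := {i : (Fin (m + 1) → ℤ) × ℤ // 0 < i.1 0 ∧ (∀ j, |i.1 j| ≤ i.1 0) ∧
  |i.2| ≤ (m + 3) * i.1 0}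

instance (m : ℕ) : Countable (Idx m) := by unfold Idx; infer_instance

/-- centre of the interval with index `i` on the line through `x` -/
noncomputable def cen {m : ℕ} (θ : ℝ) (x : Fin (m + 1) → ℝ) (i : Idx m) : ℝ :=
  (i.1.2 + θ - ∑ j : Fin m, (i.1.1 j.succ : ℝ) * x j.succ) / (i.1.1 0 : ℝ)

/-- its radius -/
noncomputable def rad {m : ℕ} (ψ : ℕ → ℝ) (i : Idx m) : ℝ :=
  ψ (i.1.1 0).toNat / (2 * (i.1.1 0 : ℝ))

theorem Idx.pos {m : ℕ} (i : Idx m) : (0 : ℝ) < (i.1.1 0 : ℝ) := by exact_mod_cast i.2.1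

theorem Idx.toNat_cast {m : ℕ} (i : Idx m) : (((i.1.1 0).toNat : ℕ) : ℝ) = (i.1.1 0 : ℝ) := by
  have h : (((i.1.1 0).toNat : ℕ) : ℤ) = i.1.1 0 := Int.toNat_of_nonneg i.2.1.le
  exact_mod_cast h

theorem Idx.one_le {m : ℕ} (i : Idx m) : 1 ≤ (i.1.1 0).toNat := by
  have h : (((i.1.1 0).toNat : ℕ) : ℤ) = i.1.1 0 := Int.toNat_of_nonneg i.2.1.le
  have := i.2.1
  omega

/-- the linear form at a point of the line -/
theorem form_eq {m : ℕ} (θ : ℝ) (x : Fin (m + 1) → ℝ) (i : Idx m) (t : ℝ) :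
    ∑ j, (i.1.1 j : ℝ) * (Fin.cons t (Fin.tail x) : Fin (m + 1) → ℝ) j - i.1.2 - θ =
      (i.1.1 0 : ℝ) * (t - cen θ x i) := by
  rw [Fin.sum_univ_succ]
  simp only [Fin.cons_zero, Fin.cons_succ, Fin.tail]
  unfold cen
  have := i.pos
  field_simp
  ring

theorem idx_finite {m : ℕ} (N : ℤ) : {i : Idx m | i.1.1 0 ≤ N}.Finite := by
  have h : (Set.pi Set.univ (fun _ : Fin (m + 1) => Set.Icc (-N) N) ×ˢ
      Set.Icc (-((m + 3) * N)) ((m + 3) * N) : Set ((Fin (m + 1) → ℤ) × ℤ)).Finite := by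
    apply Set.Finite.prod
    · exact Set.Finite.pi fun _ => Set.finite_Icc _ _
    · exact Set.finite_Icc _ _
  refine Set.Finite.of_finite_image (f := Subtype.val) (h.subset ?_)
    (Subtype.val_injective.injOn)
  rintro _ ⟨i, hi, rfl⟩
  rw [mem_ofPred_eq] at hi
  obtain ⟨h1, h2, h3⟩ := i.2
  refine ⟨?_, ?_⟩
  · intro j _
    have := abs_le.1 ((h2 j).trans hi)
    exact ⟨this.1, this.2⟩
  · have h4 : |i.1.2| ≤ (m + 3) * N := h3.trans (by gcongr)
    exact ⟨(abs_le.1 h4).1, (abs_le.1 h4).2⟩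

theorem fam_of {m : ℕ} {g : ℝ → ℝ} {C : ℝ} (hg : Gauge g C) {ψ : ℕ → ℝ} (θ : ℝ)
    (hθ : θ ∈ Icc (0 : ℝ) 1)
    (hψpos : ∀ n, 1 ≤ n → 0 < ψ n) (hψ : ∀ a b, 1 ≤ a → a ≤ b → ψ b ≤ ψ a)
    (x : Fin (m + 1) → ℝ) (hx : ∀ j, x j ∈ Icc (0 : ℝ) 1)
    (h : ∀ k : ℕ, ∀ᵐ t : ℝ ∂(volume.restrict (Icc 0 1)),
      {i : (Fin (m + 1) → ℤ) × ℤ | 0 < i.1 0 ∧ (∀ j, |i.1 j| ≤ i.1 0) ∧
        |∑ j, (i.1 j : ℝ) * (Fin.cons t (Fin.tail x) : Fin (m + 1) → ℝ) j - i.2 - θ| <
          (i.1 0 : ℝ) * min (g (ψ (max (i.1 0).toNat 1) /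
            (2 * ((max (i.1 0).toNat 1 : ℕ) : ℝ)))) (1 / ((k : ℝ) + 1))}.Infinite) :
    Fam g (cen θ x) (rad ψ : Idx m → ℝ) where
  pos i := by
    unfold rad
    have := i.pos
    have := hψpos _ i.one_le
    positivity
  small ε hε := by
    refine (idx_finite (m := m) ⌈ψ 1 / (2 * ε)⌉).subset ?_
    intro i hi
    rw [mem_ofPred_eq] at hi ⊢
    unfold rad at hi
    have h1 := i.pos
    have h2 := hψ 1 _ le_rfl i.one_le
    rw [le_div_iff₀ (by positivity)] at hi
    have h3 : (i.1.1 0 : ℝ) ≤ ψ 1 / (2 * ε) := by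
      rw [le_div_iff₀ (by positivity)]
      nlinarith
    exact_mod_cast h3.trans (Int.le_ceil _)
  full τ hτ := by
    obtain ⟨k, hk⟩ := exists_nat_one_div_lt hτ
    filter_upwards [h k, ae_restrict_mem measurableSet_Icc] with t ht htI
    have hsub : {i : (Fin (m + 1) → ℤ) × ℤ | 0 < i.1 0 ∧ (∀ j, |i.1 j| ≤ i.1 0) ∧
        |∑ j, (i.1 j : ℝ) * (Fin.cons t (Fin.tail x) : Fin (m + 1) → ℝ) j - i.2 - θ| <
          (i.1 0 : ℝ) * min (g (ψ (max (i.1 0).toNat 1) /
            (2 * ((max (i.1 0).toNat 1 : ℕ) : ℝ)))) (1 / ((k : ℝ) + 1))} ⊆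
        Subtype.val '' {i : Idx m | |t - cen θ x i| < min (g (rad ψ i)) τ} := by
      rintro ⟨q, p⟩ ⟨h1, h2, h3⟩
      simp only at h1 h2 h3
      have hq0 : (0 : ℝ) < (q 0 : ℝ) := by exact_mod_cast h1
      have hk1 : (1 : ℝ) / ((k : ℝ) + 1) ≤ 1 := by
        rw [div_le_one (by positivity)]
        have : (0 : ℝ) ≤ k := Nat.cast_nonneg _
        linarith
      have hp : |p| ≤ (m + 3) * q 0 := by
        have h4 : |∑ j, (q j : ℝ) * (Fin.cons t (Fin.tail x) : Fin (m + 1) → ℝ) j - p - θ| <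
            q 0 := by
          refine h3.trans_le ?_
          calc (q 0 : ℝ) * min _ _ ≤ (q 0 : ℝ) * 1 := by
                gcongr
                exact (min_le_right _ _).trans hk1
            _ = q 0 := mul_one _
        have h5 : |∑ j, (q j : ℝ) * (Fin.cons t (Fin.tail x) : Fin (m + 1) → ℝ) j| ≤
            (m + 1) * q 0 := by
          calc |∑ j, (q j : ℝ) * (Fin.cons t (Fin.tail x) : Fin (m + 1) → ℝ) j|
              ≤ ∑ j, |(q j : ℝ) * (Fin.cons t (Fin.tail x) : Fin (m + 1) → ℝ) j| :=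
                Finset.abs_sum_le_sum_abs _ _
            _ ≤ ∑ _j : Fin (m + 1), (q 0 : ℝ) := by
                apply Finset.sum_le_sum
                intro j _
                have h6 : |(q j : ℝ)| ≤ q 0 := by exact_mod_cast h2 j
                have h7 : (Fin.cons t (Fin.tail x) : Fin (m + 1) → ℝ) j ∈ Icc (0 : ℝ) 1 := by
                  refine Fin.cases ?_ (fun j => ?_) j
                  · exact htI
                  · exact hx j.succ
                rw [abs_mul, abs_of_nonneg h7.1]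
                calc |(q j : ℝ)| * (Fin.cons t (Fin.tail x) : Fin (m + 1) → ℝ) j
                    ≤ q 0 * 1 := by
                      apply mul_le_mul h6 h7.2 h7.1 hq0.le
                  _ = q 0 := mul_one _
            _ = (m + 1) * q 0 := by
                rw [Finset.sum_const, Finset.card_univ, Fintype.card_fin, nsmul_eq_mul]
                push_cast; ring
        have h8 : |(p : ℝ)| ≤ (m + 3) * q 0 := by
          rw [abs_lt] at h4
          rw [abs_le] at h5 ⊢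
          have hq1 : (1 : ℝ) ≤ q 0 := by exact_mod_cast h1
          constructor <;> nlinarith [hθ.1, hθ.2, h4.1, h4.2, h5.1, h5.2]
        have : ((|p| : ℤ) : ℝ) ≤ (((m + 3) * q 0 : ℤ) : ℝ) := by push_cast; exact h8
        exact_mod_cast this
      set i : Idx m := ⟨(q, p), h1, h2, hp⟩ with hi
      refine ⟨i, ?_, rfl⟩
      show |t - cen θ x i| < min (g (rad ψ i)) τ
      have h4 := form_eq θ x i t
      change ∑ j, (q j : ℝ) * (Fin.cons t (Fin.tail x) : Fin (m + 1) → ℝ) j - p - θ =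
        (q 0 : ℝ) * (t - cen θ x i) at h4
      rw [h4, abs_mul, abs_of_pos hq0] at h3
      have h5 := lt_of_mul_lt_mul_left h3 hq0.le
      have h6 : max (q 0).toNat 1 = (q 0).toNat := max_eq_left (by omega)
      rw [h6] at h5
      refine h5.trans_le (min_le_min ?_ hk.le)
      unfold rad
      apply le_of_eq
      congr 2
      have := i.toNat_cast
      change (((q 0).toNat : ℕ) : ℝ) = (q 0 : ℝ) at this
      rw [this]
    exact Set.Infinite.of_image _ (ht.mono hsub)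

end Pool.Agent.TH443.MJ
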