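import Pool.Agent.TH443.MJ.Round

/-!
One dimensional mass transference: an interval on which a countable family of intervals is cheap
contains small intervals of the family on which it is cheap.
-/

set_option autoImplicit false

open MeasureTheory Filter Set Metric
open scoped ENNReal

namespace Pool.Agent.TH443.MJ

/-- total cost of the intervals `(u k - ℓ k, u k + ℓ k)` hitting `[z - s, z + s]` -/
noncomputable def cost {κ : Type} (g : ℝ → ℝ) (u ℓ : κ → ℝ) (z s : ℝ) : ℝ≥0∞ :=
  ∑' k, if |u k - z| < ℓ k + s then ENNReal.ofReal (g (ℓ k)) else 0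

theorem sum_le_of_disj {ι : Type} (K : Finset ι) (c R : ι → ℝ) (hR : ∀ i ∈ K, 0 < R i)
    (hd : ∀ i ∈ K, ∀ j ∈ K, i ≠ j → R i + R j < |c i - c j|) (a ρ : ℝ) (hρ : 0 ≤ ρ)
    (h : ∀ i ∈ K, |c i - a| + R i ≤ ρ) : ∑ i ∈ K, R i ≤ ρ := by
  classical
  have h1 : volume (⋃ i ∈ K, ball (c i) (R i)) = ∑ i ∈ K, volume (ball (c i) (R i)) := by
    apply measure_biUnion_finset
    · intro i hi j hj hij
      exact ball_disjoint_ball (by rw [Real.dist_eq]; exact (hd i hi j hj hij).le)
    · intro i _; exact measurableSet_ball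
  have h2 : (⋃ i ∈ K, ball (c i) (R i)) ⊆ closedBall a ρ := by
    apply iUnion₂_subset
    intro i hi
    refine (ball_subset_ball' ?_).trans ball_subset_closedBall
    rw [Real.dist_eq]
    linarith [h i hi]
  have h3 := measure_mono (μ := volume) h2
  rw [h1, Real.volume_closedBall] at h3
  have h4 : ∑ i ∈ K, volume (ball (c i) (R i)) = ENNReal.ofReal (2 * ∑ i ∈ K, R i) := by
    rw [Finset.mul_sum, ENNReal.ofReal_sum_of_nonneg]
    · exact Finset.sum_congr rfl fun i _ => Real.volume_ball _ _
    · intro i hi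
      have := (hR i hi).le
      positivity
  rw [h4] at h3
  have h5 := (ENNReal.ofReal_le_ofReal_iff (by positivity)).1 h3
  linarith

theorem exists_tau {ι : Type} (P : Finset ι) (r : ι → ℝ) (hr : ∀ i, 0 < r i) (b : ℝ) (hb : 0 < b) :
    ∃ τ : ℝ, 0 < τ ∧ τ ≤ b ∧ ∀ j ∈ P, τ ≤ r j / 2 := by
  classical
  induction P using Finset.induction_on with
  | empty => exact ⟨b, hb, le_rfl, by simp⟩
  | insert a P _ ih =>
    obtain ⟨τ, h1, h2, h3⟩ := ih
    refine ⟨min τ (r a / 2), lt_min h1 (by linarith [hr a]), (min_le_left _ _).trans h2, ?_⟩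
    intro j hj
    rcases Finset.mem_insert.1 hj with rfl | hj
    · exact min_le_right _ _
    · exact (min_le_left _ _).trans (h3 j hj)

section

variable {g : ℝ → ℝ} {C : ℝ} {κ : Type} {u ℓ : κ → ℝ} {η z s : ℝ}

/-- an interval hitting `[z - s, z + s]` is short if the total cost is small -/
theorem len_le (hg : Gauge g C) (hℓ : ∀ k, 0 < ℓ k) (hη : 0 < η) (hη1 : η < 1) (hs : 0 < s)
    (hcost : cost g u ℓ z s ≤ ENNReal.ofReal (η * g s)) (k : κ) (hk : |u k - z| < ℓ k + s) :
    g s * ℓ k ≤ C * (g (ℓ k) * s) := by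
  have h1 : ENNReal.ofReal (g (ℓ k)) ≤ cost g u ℓ z s := by
    unfold cost
    have := ENNReal.le_tsum (f := fun k => if |u k - z| < ℓ k + s then ENNReal.ofReal (g (ℓ k))
      else 0) k
    simpa [hk] using this
  have hgs := hg.pos s hs
  have h2 := (ENNReal.ofReal_le_ofReal_iff (by positivity)).1 (h1.trans hcost)
  have h3 : g (ℓ k) < g s := by nlinarith
  have h4 : ℓ k < s := by
    by_contra hcon
    exact absurd (hg.mono s (ℓ k) hs (not_lt.1 hcon)) (not_le.2 h3)
  exact hg.quasi _ _ (hℓ k) h4.le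

/-- the intervals of the family that are hit by a long interval have small total length -/
theorem mass_le (hg : Gauge g C) (hC : 0 < C) (hℓ : ∀ k, 0 < ℓ k) (hη : 0 < η)
    (hη1 : η < 1) (hη2 : η * (216 * C) ≤ 1) (hs : 0 < s)
    (hcost : cost g u ℓ z s ≤ ENNReal.ofReal (η * g s)) {ι : Type} (c r R : ι → ℝ)
    (K : Finset ι) (hR : ∀ i ∈ K, 0 < R i) (hr : ∀ i ∈ K, r i ≤ R i)
    (hd : ∀ i ∈ K, ∀ j ∈ K, i ≠ j → R i + R j < |c i - c j|)
    (hin : ∀ i ∈ K, |c i - z| + R i ≤ s)
    (hb : ∀ i ∈ K, ∃ k, |u k - c i| < ℓ k + r i ∧ R i ≤ 4 * ℓ k) :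
    ∑ i ∈ K, R i ≤ s / 24 := by
  classical
  have hgs := hg.pos s hs
  have key : ∀ k, (∑ i ∈ K, if |u k - c i| < ℓ k + r i ∧ R i ≤ 4 * ℓ k then
      ENNReal.ofReal (R i) else 0) ≤
      ENNReal.ofReal (9 * C * s / g s) *
        (if |u k - z| < ℓ k + s then ENNReal.ofReal (g (ℓ k)) else 0) := by
    intro k
    rw [← Finset.sum_filter]
    set S := K.filter (fun i => |u k - c i| < ℓ k + r i ∧ R i ≤ 4 * ℓ k) with hS
    rcases S.eq_empty_or_nonempty with h | ⟨i0, hi0⟩
    · rw [h, Finset.sum_empty]; exact zero_le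
    · have hi0' := (Finset.mem_filter.1 hi0)
      have hhit : |u k - z| < ℓ k + s := by
        have h1 := hin i0 hi0'.1
        have h2 := hr i0 hi0'.1
        have h3 : |u k - z| ≤ |u k - c i0| + |c i0 - z| := abs_sub_le _ _ _
        linarith [hi0'.2.1]
      rw [if_pos hhit]
      have h9 : ∑ i ∈ S, R i ≤ 9 * ℓ k := by
        apply sum_le_of_disj S c R (fun i hi => hR i (Finset.mem_filter.1 hi).1)
          (fun i hi j hj => hd i (Finset.mem_filter.1 hi).1 j (Finset.mem_filter.1 hj).1) (u k)
        · have := hℓ k; positivity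
        · intro i hi
          have h1 := (Finset.mem_filter.1 hi)
          have h2 := hr i h1.1
          have h3 := h1.2.1
          have h4 := h1.2.2
          rw [abs_sub_comm] at h3
          linarith
      have h10 := len_le hg hℓ hη hη1 hs hcost k hhit
      rw [← ENNReal.ofReal_sum_of_nonneg (fun i hi => (hR i (Finset.mem_filter.1 hi).1).le),
        ← ENNReal.ofReal_mul (by positivity)]
      apply ENNReal.ofReal_le_ofReal
      refine h9.trans ?_
      rw [div_mul_eq_mul_div, le_div_iff₀ hgs]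
      nlinarith
  have h1 : ENNReal.ofReal (∑ i ∈ K, R i) ≤ ∑' k, ∑ i ∈ K,
      (if |u k - c i| < ℓ k + r i ∧ R i ≤ 4 * ℓ k then ENNReal.ofReal (R i) else 0) := by
    rw [ENNReal.ofReal_sum_of_nonneg (fun i hi => (hR i hi).le),
      Summable.tsum_finsetSum (fun _ _ => ENNReal.summable)]
    apply Finset.sum_le_sum
    intro i hi
    obtain ⟨k, hk⟩ := hb i hi
    refine le_trans ?_ (ENNReal.le_tsum k)
    rw [if_pos hk]
  have h2 : ENNReal.ofReal (∑ i ∈ K, R i) ≤ ENNReal.ofReal (s / 24) := by
    calc ENNReal.ofReal (∑ i ∈ K, R i) ≤ _ := h1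
      _ ≤ ∑' k, ENNReal.ofReal (9 * C * s / g s) *
        (if |u k - z| < ℓ k + s then ENNReal.ofReal (g (ℓ k)) else 0) :=
          ENNReal.tsum_le_tsum key
      _ = ENNReal.ofReal (9 * C * s / g s) * cost g u ℓ z s := by
          rw [ENNReal.tsum_mul_left]; rfl
      _ ≤ ENNReal.ofReal (9 * C * s / g s) * ENNReal.ofReal (η * g s) := by gcongr
      _ = ENNReal.ofReal (9 * C * s * η) := by
          rw [← ENNReal.ofReal_mul (by positivity)]
          congr 1
          field_simp
      _ ≤ ENNReal.ofReal (s / 24) := by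
          apply ENNReal.ofReal_le_ofReal
          nlinarith
  exact (ENNReal.ofReal_le_ofReal_iff (by positivity)).1 h2

theorem step_lemma (hg : Gauge g C) (hC : 1 ≤ C) {ι : Type} [Countable ι] {c r : ι → ℝ}
    (hF : Fam g c r) (hℓ : ∀ k, 0 < ℓ k) (hη : 0 < η) (hη2 : η * (216 * C) ≤ 1)
    (hs : 0 < s) (h0 : 0 ≤ z - s) (h1 : z + s ≤ 1)
    (hcost : cost g u ℓ z s ≤ ENNReal.ofReal (η * g s)) (F : Set ι) (hFin : F.Finite) :
    ∃ i, i ∉ F ∧ |c i - z| + r i ≤ s ∧ cost g u ℓ (c i) (r i) ≤ ENNReal.ofReal (η * g (r i)) := by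
  classical
  have hη1 : η < 1 := by nlinarith
  by_contra hcon
  push Not at hcon
  have hgs := hg.pos s hs
  obtain ⟨L, hL⟩ := exists_nat_gt (24 * g s / s)
  set ε : ℝ := 1 / (60 * (L + 1)) with hε
  have hL0 : (0 : ℝ) < L + 1 := by positivity
  have hεpos : 0 < ε := by positivity
  have hε1 : ε ≤ 1 / 2 := by
    rw [hε, div_le_div_iff₀ (by positivity) (by norm_num)]
    have : (0 : ℝ) ≤ L := Nat.cast_nonneg _
    linarith
  have main : ∀ n : ℕ, n ≤ L → ∃ P Q : Finset ι, Q ⊆ P ∧ ∑ j ∈ P, r j ≤ n * ε * s ∧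
      (∀ i ∈ Q, |c i - z| + r i ≤ s) ∧
      (∀ k, ∀ i ∈ Q, ∀ j ∈ Q, |u k - c i| < ℓ k + r i → |u k - c j| < ℓ k + r j → i = j) ∧
      ENNReal.ofReal (n * (η * s / 24)) ≤ ∑ i ∈ Q, cost g u ℓ (c i) (r i) := by
    intro n
    induction n with
    | zero =>
      intro _
      exact ⟨∅, ∅, by simp, by simp, by simp, by simp, by simp⟩
    | succ n ih =>
      intro hn
      obtain ⟨P, Q, hQP, hPs, hQin, hQu, hQc⟩ := ih (by omega)
      have hPs' : ∑ j ∈ P, r j ≤ s / 60 := by
        refine hPs.trans ?_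
        have h3 : (n : ℝ) ≤ L := by exact_mod_cast (by omega : n ≤ L)
        calc (n : ℝ) * ε * s ≤ (L + 1) * ε * s := by gcongr; linarith
          _ = s / 60 := by rw [hε]; field_simp
      obtain ⟨τ, hτ, hτs, hτP⟩ := exists_tau P r hF.pos (s / 4) (by positivity)
      obtain ⟨K, hK1, hK2, hK3, hK4, hK5, hK6⟩ := round_lemma hg hF z s hs h0 h1 P hPs'
        (F ∪ (P : Set ι)) (hFin.union (Finset.finite_toSet P)) τ hτ hτs hτP ε hεpos
      set R : ι → ℝ := fun i => min (g (r i)) τ with hR
      have hRpos : ∀ i, 0 < R i := fun i => lt_min (hg.pos _ (hF.pos i)) hτ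
      have hRτ : ∀ i, R i ≤ τ := fun i => min_le_right _ _
      have hRg : ∀ i, R i ≤ g (r i) := fun i => min_le_left _ _
      have hrR : ∀ i ∈ K, r i ≤ ε * R i := hK2
      have hrR' : ∀ i ∈ K, r i ≤ R i / 2 := by
        intro i hi
        have h3 := hRpos i
        have h4 := hrR i hi
        nlinarith
      set Kb := K.filter (fun i => ∃ k, |u k - c i| < ℓ k + r i ∧ R i ≤ 4 * ℓ k) with hKb
      set Ka := K.filter (fun i => ¬ ∃ k, |u k - c i| < ℓ k + r i ∧ R i ≤ 4 * ℓ k) with hKa
      have hmb : ∑ i ∈ Kb, R i ≤ s / 24 := by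
        refine mass_le hg (by linarith) hℓ hη hη1 hη2 hs hcost c r R Kb (fun i _ => hRpos i)
          (fun i hi => ?_) (fun i hi j hj hij => ?_) (fun i hi => ?_) (fun i hi => ?_)
        · have := hrR' i (Finset.mem_filter.1 hi).1
          linarith [hRpos i]
        · exact hK5 i (Finset.mem_filter.1 hi).1 j (Finset.mem_filter.1 hj).1 hij
        · exact hK3 i (Finset.mem_filter.1 hi).1
        · exact (Finset.mem_filter.1 hi).2
      have hsplit : ∑ i ∈ Kb, R i + ∑ i ∈ Ka, R i = ∑ i ∈ K, R i :=
        Finset.sum_filter_add_sum_filter_not _ _ _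
      have hma : s / 24 ≤ ∑ i ∈ Ka, R i := by
        have h3 : s / 12 ≤ ∑ i ∈ K, R i := hK6
        linarith
      have hKsum : ∑ i ∈ K, R i ≤ s :=
        sum_le_of_disj K c R (fun i _ => hRpos i) hK5 z s hs.le hK3
      have hKaK : ∀ i ∈ Ka, i ∈ K := fun i hi => (Finset.mem_filter.1 hi).1
      have hshort : ∀ i ∈ Ka, ∀ k, |u k - c i| < ℓ k + r i → 4 * ℓ k < R i := by
        intro i hi k hk
        have := (Finset.mem_filter.1 hi).2
        push Not at this
        exact this k hk
      have hdisjP : ∀ i ∈ K, i ∉ P := fun i hi hiP => hK1 i hi (mem_union_right _ hiP)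
      refine ⟨P ∪ K, Q ∪ Ka, ?_, ?_, ?_, ?_, ?_⟩
      · exact Finset.union_subset_union hQP (Finset.filter_subset _ _)
      · rw [Finset.sum_union (Finset.disjoint_left.2 fun i hi hiK => hdisjP i hiK hi)]
        have h3 : ∑ i ∈ K, r i ≤ ε * s := by
          calc ∑ i ∈ K, r i ≤ ∑ i ∈ K, ε * R i := Finset.sum_le_sum hrR
            _ = ε * ∑ i ∈ K, R i := by rw [Finset.mul_sum]
            _ ≤ ε * s := by gcongr
        push_cast
        nlinarith
      · intro i hi
        rcases Finset.mem_union.1 hi with hi | hi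
        · exact hQin i hi
        · have h3 : |c i - z| + R i ≤ s := hK3 i (hKaK i hi)
          have h4 := hrR' i (hKaK i hi)
          linarith [hRpos i]
      · -- uniqueness
        have hold : ∀ k, ∀ i ∈ Ka, ∀ j ∈ Q, |u k - c i| < ℓ k + r i →
            |u k - c j| < ℓ k + r j → False := by
          intro k i hi j hj h3 h4
          have h5 := hshort i hi k h3
          have h6 := hrR' i (hKaK i hi)
          have h7 := hK4 i (hKaK i hi) j (hQP hj)
          have h8 := hτP j (hQP hj)
          have h9 := hRτ i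
          have h10 : |c i - c j| ≤ |c i - u k| + |u k - c j| := abs_sub_le _ _ _
          rw [abs_sub_comm] at h3
          linarith
        intro k i hi j hj h3 h4
        rcases Finset.mem_union.1 hi with hi | hi <;> rcases Finset.mem_union.1 hj with hj | hj
        · exact hQu k i hi j hj h3 h4
        · exact (hold k j hj i hi h4 h3).elim
        · exact (hold k i hi j hj h3 h4).elim
        · by_contra hij
          have h5 := hshort i hi k h3
          have h6 := hrR' i (hKaK i hi)
          have h5' := hshort j hj k h4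
          have h6' := hrR' j (hKaK j hj)
          have h7 : R i + R j < |c i - c j| := hK5 i (hKaK i hi) j (hKaK j hj) hij
          have h10 : |c i - c j| ≤ |c i - u k| + |u k - c j| := abs_sub_le _ _ _
          rw [abs_sub_comm] at h3
          have := hRpos i
          have := hRpos j
          linarith
      · rw [Finset.sum_union (Finset.disjoint_left.2 fun i hi hiK =>
          hdisjP i (hKaK i hiK) (hQP hi))]
        have h3 : ENNReal.ofReal (η * s / 24) ≤ ∑ i ∈ Ka, cost g u ℓ (c i) (r i) := by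
          calc ENNReal.ofReal (η * s / 24) ≤ ENNReal.ofReal (∑ i ∈ Ka, η * R i) := by
                apply ENNReal.ofReal_le_ofReal
                rw [← Finset.mul_sum]
                nlinarith
            _ = ∑ i ∈ Ka, ENNReal.ofReal (η * R i) := by
                rw [ENNReal.ofReal_sum_of_nonneg]
                intro i _
                have := hRpos i
                positivity
            _ ≤ ∑ i ∈ Ka, cost g u ℓ (c i) (r i) := by
                apply Finset.sum_le_sum
                intro i hi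
                have h4 : |c i - z| + R i ≤ s := hK3 i (hKaK i hi)
                have h5 := hrR' i (hKaK i hi)
                have h6 := hcon i (fun h => hK1 i (hKaK i hi) (mem_union_left _ h))
                  (by linarith [hRpos i])
                refine le_trans ?_ h6.le
                apply ENNReal.ofReal_le_ofReal
                have := hRg i
                gcongr
        calc ENNReal.ofReal (((n + 1 : ℕ) : ℝ) * (η * s / 24))
            = ENNReal.ofReal (n * (η * s / 24)) + ENNReal.ofReal (η * s / 24) := by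
              rw [← ENNReal.ofReal_add (by positivity) (by positivity)]
              congr 1; push_cast; ring
          _ ≤ _ := add_le_add hQc h3
  obtain ⟨P, Q, -, -, hQin, hQu, hQc⟩ := main L le_rfl
  have hfin : ∑ i ∈ Q, cost g u ℓ (c i) (r i) ≤ cost g u ℓ z s := by
    unfold cost
    rw [← Summable.tsum_finsetSum (fun _ _ => ENNReal.summable)]
    apply ENNReal.tsum_le_tsum
    intro k
    by_cases hk : ∃ i ∈ Q, |u k - c i| < ℓ k + r i
    · obtain ⟨i, hi, hik⟩ := hk
      rw [Finset.sum_eq_single i]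
      · rw [if_pos hik, if_pos]
        have h3 := hQin i hi
        have h4 : |u k - z| ≤ |u k - c i| + |c i - z| := abs_sub_le _ _ _
        linarith
      · intro j hj hji
        rw [if_neg]
        intro hjk
        exact hji (hQu k j hj i hi hjk hik)
      · intro h; exact absurd hi h
    · push Not at hk
      rw [Finset.sum_eq_zero]
      · exact zero_le
      · intro i hi
        rw [if_neg (not_lt.2 (hk i hi))]
  have h3 := (hQc.trans hfin).trans hcost
  have h4 := (ENNReal.ofReal_le_ofReal_iff (by positivity)).1 h3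
  have h5 : 24 * g s < L * s := (div_lt_iff₀ hs).1 hL
  nlinarith

end

end Pool.Agent.TH443.MJ
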